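import Pool.Agent.NEC.Refl

/-!
# NEC: the missing residue, and the closure of the values at odd indices

For an extremal prime `p > 5`: `p = 1 mod 4`, the missing residue is `-((p-1)/2)!`, and for odd `n`
with `n! ≠ 1` the residue `-n!` is the value at an odd index (Rokowska and Schinzel).
-/

set_option autoImplicit false

namespace Pool.Agent.NEC

variable {p : ℕ} [hp : Fact p.Prime] {w : ZMod p}

theorem odd_p (h5 : 5 < p) : p % 2 = 1 := by
  rcases hp.out.eq_two_or_odd with h | h
  · omega
  · exact h

theorem refl_odd {n : ℕ} (h : n ≤ p - 1) (ho : n % 2 = 1) : ft p n * ft p (p - 1 - n) = 1 := by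
  rw [refl h]
  exact Even.neg_one_pow (by rw [Nat.even_add_one, Nat.not_even_iff]; exact ho)

theorem refl_even {n : ℕ} (h : n ≤ p - 1) (ho : n % 2 = 0) : ft p n * ft p (p - 1 - n) = -1 := by
  rw [refl h]
  exact Odd.neg_one_pow (by rw [Nat.odd_add_one, Nat.not_odd_iff]; exact ho)

theorem two_ne (h5 : 5 < p) : (2 : ZMod p) ≠ 0 := by
  intro h
  have h1 : ((2 : ℕ) : ZMod p) = 0 := by exact_mod_cast h
  rw [ZMod.natCast_eq_zero_iff] at h1
  have := Nat.le_of_dvd (by norm_num) h1
  omega

theorem eq_one_or (x : ZMod p) (h : x * x = 1) : x = 1 ∨ x = -1 := by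
  have h1 : (x - 1) * (x + 1) = 0 := by linear_combination h
  rcases mul_eq_zero.mp h1 with h2 | h2
  · left; linear_combination h2
  · right; linear_combination h2

/-- Injectivity with index one allowed. -/
theorem Ext.inj1 (E : Ext p w) (h5 : 5 < p) {m n : ℕ} (hm1 : 1 ≤ m) (hm : m ≤ p - 1) (hn1 : 1 ≤ n)
    (hn : n ≤ p - 1) (h : ft p m = ft p n) (h1 : ft p m ≠ 1) : m = n := by
  rcases Nat.lt_or_ge m 2 with h2 | h2
  · exfalso
    apply h1
    rw [show m = 1 by omega]
    exact ft_one
  rcases Nat.lt_or_ge n 2 with h3 | h3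
  · exfalso
    apply h1
    rw [h, show n = 1 by omega]
    exact ft_one
  exact E.inj m n h2 hm h3 hn h

theorem Ext.idx_one (E : Ext p w) (h5 : 5 < p) {n : ℕ} (hn1 : 1 ≤ n) (hn : n ≤ p - 1)
    (h : ft p n = 1) : n = 1 ∨ n = p - 2 := by
  rcases Nat.lt_or_ge n 2 with h2 | h2
  · left; omega
  · right
    exact E.inj n (p - 2) h2 hn (by omega) (by omega) (by rw [h, ft_sub_two (by omega)])

theorem Ext.idx_neg_one (E : Ext p w) (h5 : 5 < p) {n : ℕ} (hn1 : 1 ≤ n) (hn : n ≤ p - 1)
    (h : ft p n = -1) : n = p - 1 := by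
  apply E.inj1 h5 hn1 hn (by omega) le_rfl (by rw [h, ft_last])
  rw [h]
  intro h2
  exact two_ne h5 (by linear_combination (-1 : ZMod p) * h2)

theorem Ext.mod_four (E : Ext p w) (h5 : 5 < p) : p % 4 = 1 := by
  have ho := odd_p h5
  by_contra hc
  have h3 : p % 4 = 3 := by omega
  have h1 := refl_odd (p := p) (n := (p - 1) / 2) (by omega) (by omega)
  rw [show p - 1 - (p - 1) / 2 = (p - 1) / 2 by omega] at h1
  rcases eq_one_or _ h1 with h2 | h2
  · rcases E.idx_one h5 (by omega) (by omega) h2 with h4 | h4 <;> omega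
  · have := E.idx_neg_one h5 (by omega) (by omega) h2
    omega

theorem Ext.r_sq (E : Ext p w) (h5 : 5 < p) :
    ft p ((p - 1) / 2) * ft p ((p - 1) / 2) = -1 := by
  have h4 := E.mod_four h5
  have h1 := refl_even (p := p) (n := (p - 1) / 2) (by omega) (by omega)
  rwa [show p - 1 - (p - 1) / 2 = (p - 1) / 2 by omega] at h1

theorem Ext.w_eq (E : Ext p w) (h5 : 5 < p) : w = - ft p ((p - 1) / 2) := by
  have ho := odd_p h5
  have h4 := E.mod_four h5
  have hw0 := E.ne
  -- w is not 1 or -1
  have hw1 : w ≠ 1 := by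
    intro h
    exact E.miss 1 (by omega) (by rw [h, ft_one])
  have hwm : w ≠ -1 := by
    intro h
    exact E.miss (p - 1) le_rfl (by rw [h, ft_last])
  -- if w⁻¹ and -w⁻¹ both are attained, contradiction
  have key : ¬ (w⁻¹ ≠ w ∧ -w⁻¹ ≠ w) := by
    rintro ⟨ha, hb⟩
    obtain ⟨n, hn2, hn, he⟩ := E.surj w⁻¹ (inv_ne_zero hw0) ha
    obtain ⟨m, hm2, hm, hf⟩ := E.surj (-w⁻¹) (neg_ne_zero.mpr (inv_ne_zero hw0)) hb
    -- n is even
    have hne : n % 2 = 0 := by
      by_contra hc
      have h1 := refl_odd hn (by omega)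
      rw [he] at h1
      apply E.miss (p - 1 - n) (by omega)
      have := congrArg (fun x => w * x) h1
      simp only [mul_one] at this
      rw [← mul_assoc, mul_inv_cancel₀ hw0, one_mul] at this
      exact this
    have hmo : m % 2 = 1 := by
      by_contra hc
      have h1 := refl_even hm (by omega)
      rw [hf] at h1
      apply E.miss (p - 1 - m) (by omega)
      have := congrArg (fun x => -(w * x)) h1
      simp only [mul_neg, mul_one, neg_neg, neg_mul] at this
      rw [← mul_assoc, mul_inv_cancel₀ hw0, one_mul] at this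
      exact this
    have h1 : ft p (p - 1 - n) = -w := by
      have h1 := refl_even hn hne
      rw [he] at h1
      have := congrArg (fun x => w * x) h1
      simp only [mul_neg, mul_one] at this
      rw [← mul_assoc, mul_inv_cancel₀ hw0, one_mul] at this
      exact this
    have h2 : ft p (p - 1 - m) = -w := by
      have h1 := refl_odd hm hmo
      rw [hf] at h1
      have := congrArg (fun x => -(w * x)) h1
      simp only [mul_neg, mul_one, neg_neg, neg_mul] at this
      rw [← mul_assoc, mul_inv_cancel₀ hw0, one_mul] at this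
      exact this
    have hnp : n ≠ p - 1 := by
      intro h
      rw [h, Nat.sub_self, ft_zero] at h1
      apply hwm
      linear_combination h1
    have := E.inj1 h5 (m := p - 1 - n) (n := p - 1 - m) (by omega) (by omega) (by omega) (by omega)
      (by rw [h1, h2]) (by
        rw [h1]
        intro h
        apply hwm
        linear_combination (-1 : ZMod p) * h)
    omega
  have h6 : w * w = -1 := by
    by_contra hc
    apply key
    constructor
    · intro h
      have h7 : w * w = 1 := by
        nth_rw 1 [← h]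
        exact inv_mul_cancel₀ hw0
      rcases eq_one_or _ h7 with h8 | h8
      · exact hw1 h8
      · exact hwm h8
    · intro h
      apply hc
      nth_rw 1 [← h]
      rw [neg_mul, inv_mul_cancel₀ hw0]
  have h7 := E.r_sq h5
  have h8 : (w - ft p ((p - 1) / 2)) * (w + ft p ((p - 1) / 2)) = 0 := by
    linear_combination h6 - h7
  rcases mul_eq_zero.mp h8 with h9 | h9
  · exfalso
    exact E.miss ((p - 1) / 2) (by omega) (by linear_combination (-1 : ZMod p) * h9)
  · linear_combination h9

/-- Closure of the values at odd indices under negation. -/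
theorem Ext.neg_odd (E : Ext p w) (h5 : 5 < p) {n : ℕ} (hn : n ≤ p - 1) (ho : n % 2 = 1)
    (h1 : ft p n ≠ 1) : ∃ j : ℕ, j % 2 = 1 ∧ j ≤ p - 1 ∧ ft p j = - ft p n := by
  have hodd := odd_p h5
  have h4 := E.mod_four h5
  have hn0 : ft p n ≠ 0 := ft_ne_zero (by omega)
  have hne : - ft p n ≠ w := by
    intro h
    rw [E.w_eq h5] at h
    have h2 : ft p n = ft p ((p - 1) / 2) := by linear_combination (-1 : ZMod p) * h
    have := E.inj1 h5 (by omega) hn (by omega) (by omega) h2 h1
    omega
  obtain ⟨j, hj2, hj, he⟩ := E.surj (- ft p n) (neg_ne_zero.mpr hn0) hne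
  refine ⟨j, ?_, hj, he⟩
  by_contra hc
  have h2 := refl_even hj (by omega)
  have h3 := refl_odd hn ho
  rw [he] at h2
  have h6 : ft p (p - 1 - j) = ft p (p - 1 - n) := by
    apply mul_left_cancel₀ hn0
    linear_combination (-1 : ZMod p) * h2 - h3
  have hjp : j ≠ p - 1 := by
    intro h
    rw [h, ft_last] at he
    apply h1
    linear_combination he
  have h7 : ft p (p - 1 - j) ≠ 1 := by
    intro h
    rw [h] at h6
    rw [← h6, mul_one] at h3
    exact h1 h3
  have := E.inj1 h5 (m := p - 1 - j) (n := p - 1 - n) (by omega) (by omega) (by omega) (by omega) h6 h7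
  omega

/-- Values at an odd and at an even index are neither equal nor negatives of each other (unless one is
`1` or `-1`). -/
theorem Ext.par (E : Ext p w) (h5 : 5 < p) {m n : ℕ} (hm : m ≤ p - 1) (hmo : m % 2 = 1)
    (hm1 : ft p m ≠ 1) (hn1 : 1 ≤ n) (hn : n ≤ p - 1) (hne : n % 2 = 0) :
    ft p n ≠ ft p m ∧ ft p n ≠ - ft p m := by
  have hodd := odd_p h5
  constructor
  · intro h
    have := E.inj1 h5 (by omega) hm hn1 hn h.symm hm1
    omega
  · intro h
    obtain ⟨j, hjo, hj, he⟩ := E.neg_odd h5 hm hmo hm1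
    rw [← he] at h
    by_cases hj1 : ft p j = 1
    · -- then ft m = -1
      have h2 : ft p m = -1 := by rw [hj1] at he; linear_combination he
      have := E.idx_neg_one h5 (by omega) hm h2
      omega
    · have := E.inj1 h5 (by omega) hj hn1 hn h.symm hj1
      omega

end Pool.Agent.NEC
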