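import Pool.Agent.NEC.Recip

/-!
# NEC: the explicit missing residue

For an extremal prime `p > 5` there are `a = c = 1 mod 4` with `p = a² + 4 c²`, and
`((p-1)/2)! = - a / (2 c)`, `4 c ((p-1)/4)!² = -1` modulo `p`.
-/

set_option autoImplicit false

namespace Pool.Agent.NEC

open Finset

variable {p : ℕ} [hp : Fact p.Prime]

theorem recip_nat {k : ℕ} (hk : p = 4 * k + 1) (hko : k % 2 = 1) (h5 : 5 < p)
    {χ : MulChar (ZMod p) GaussianInt} {s : ZMod p} {hs : s * s = -1} (hχ : orderOf χ = 4)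
    (hv : ∀ x : ZMod p, gi s hs (χ x) = x ^ k) (him : (jacobiSum χ χ).im ≠ 0)
    (n : ℕ) : n % 2 = 1 → (n : ℤ) ∣ (jacobiSum χ χ).im →
      (n : ZMod p) ^ k = if n % 4 = 1 then 1 else -1 := by
  have hn := jac_norm hχ h5
  have h2 := two_ne (p := p) h5
  have hm : χ (-1) = -1 := by
    apply gi_inj4 h2 s hs (chi4 hχ (neg_ne_zero.mpr one_ne_zero)) (by norm_num)
    rw [hv, map_neg, map_one]
    exact Odd.neg_one_pow (Nat.odd_iff.mpr hko)
  induction n using induction_on_primes with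
  | zero =>
    intro h
    exact absurd h (by norm_num)
  | one =>
    intro _ _
    simp
  | prime_mul l a hl ih =>
    intro ho hd
    have hlo : l % 2 = 1 := by
      by_contra hc
      have h1 : l % 2 = 0 := by omega
      rw [Nat.mul_mod, h1] at ho
      simp at ho
    have hao : a % 2 = 1 := by
      by_contra hc
      have h1 : a % 2 = 0 := by omega
      rw [Nat.mul_mod, h1] at ho
      simp at ho
    push_cast at hd
    have hda : (a : ℤ) ∣ (jacobiSum χ χ).im := dvd_trans (Dvd.intro_left _ rfl) hd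
    have hdl : (l : ℤ) ∣ (jacobiSum χ χ).im := dvd_trans (Dvd.intro _ rfl) hd
    have hlp : l ≠ p := by
      rintro rfl
      obtain ⟨e, he⟩ := hdl
      have he0 : e ≠ 0 := by
        rintro rfl
        apply him
        rw [he, mul_zero]
      have h1 : (1 : ℤ) ≤ e ^ 2 := by
        have := sq_nonneg e
        have h3 : e ^ 2 ≠ 0 := pow_ne_zero 2 he0
        omega
      rw [he] at hn
      have h3 : (5 : ℤ) < (l : ℤ) := by exact_mod_cast h5
      have h4 : (l : ℤ) ^ 2 ≤ ((l : ℤ) * e) ^ 2 := by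
        rw [mul_pow]
        nlinarith [sq_nonneg (l : ℤ)]
      nlinarith [sq_nonneg (jacobiSum χ χ).re]
    have : Fact l.Prime := ⟨hl⟩
    have h3 := recip_prime (l := l) (by omega) hlp hχ hm hn hdl
    have h4 : (l : ZMod p) ^ k = if l % 4 = 1 then 1 else -1 := by
      rw [← hv, h3]
      split_ifs
      · rw [map_one]
      · rw [map_neg, map_one]
    have h6 := ih hao hda
    push_cast
    rw [mul_pow, h4, h6]
    have hl4 : l % 4 = 1 ∨ l % 4 = 3 := by omega
    have ha4 : a % 4 = 1 ∨ a % 4 = 3 := by omega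
    rcases hl4 with h7 | h7 <;> rcases ha4 with h8 | h8 <;>
      (rw [Nat.mul_mod, h7, h8]; norm_num)

/-- The numbers `a`, `c` with `a = c = 1 mod 4`, `p = a² + 4 c²`, and the congruences of Gauss and for the
quartic character of `c`. -/
theorem exists_ac {k : ℕ} (hk : p = 4 * k + 1) (hko : k % 2 = 1) (h5 : 5 < p) :
    ∃ a c : ℤ, a % 4 = 1 ∧ c % 4 = 1 ∧ (p : ℤ) = a ^ 2 + 4 * c ^ 2 ∧
      2 * (a : ZMod p) * (ft p k * ft p k) = ft p (2 * k) ∧ (c : ZMod p) ^ k = 1 := by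
  obtain ⟨χ, s, hs, hχ, hv⟩ := exists_quartic hk h5
  have hn := jac_norm hχ h5
  have hg := (gauss_congr hk hko h5 hχ hv).2
  have hm := jac_mod hk hko h5 hχ hv
  have hev := jac_im hk hko h5 hχ hv
  set A := (jacobiSum χ χ).re with hA
  set B := (jacobiSum χ χ).im with hB
  have hm' : (A - B) % 4 = 1 := by
    have h1 : ((A - B : ℤ) : ZMod 4) = ((1 : ℤ) : ZMod 4) := by
      rw [hm]; norm_num
    rw [ZMod.intCast_eq_intCast_iff] at h1
    exact h1
  have hev' : B % 2 = 0 := by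
    have h1 : ((B : ℤ) : ZMod 2) = ((0 : ℤ) : ZMod 2) := by
      rw [hev]; norm_num
    rw [ZMod.intCast_eq_intCast_iff] at h1
    exact h1
  have hk' : (p : ℤ) = 4 * (k : ℤ) + 1 := by exact_mod_cast hk
  obtain ⟨m, hm2⟩ : ∃ m : ℕ, k = 2 * m + 1 := ⟨k / 2, by omega⟩
  have hp8 : (p : ℤ) % 8 = 5 := by
    rw [hk', hm2]
    push_cast
    omega
  -- A mod 4 and B mod 4
  have hAB : A % 4 = 3 ∧ B % 4 = 2 := by
    have hA8 : A % 8 = 0 ∨ A % 8 = 1 ∨ A % 8 = 2 ∨ A % 8 = 3 ∨ A % 8 = 4 ∨ A % 8 = 5 ∨ A % 8 = 6 ∨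
      A % 8 = 7 := by omega
    have hB8 : B % 8 = 0 ∨ B % 8 = 1 ∨ B % 8 = 2 ∨ B % 8 = 3 ∨ B % 8 = 4 ∨ B % 8 = 5 ∨ B % 8 = 6 ∨
      B % 8 = 7 := by omega
    have h1 : (A ^ 2 + B ^ 2) % 8 = 5 := by rw [hn]; exact hp8
    have h3 : (A ^ 2 + B ^ 2) % 8 = ((A % 8) ^ 2 + (B % 8) ^ 2) % 8 := by
      simp [pow_two, Int.add_emod, Int.mul_emod]
    rw [h3] at h1
    rcases hA8 with h | h | h | h | h | h | h | h <;>
      rcases hB8 with h' | h' | h' | h' | h' | h' | h' | h' <;>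
      (rw [h, h'] at h1; first | omega | (exfalso; revert h1; norm_num))
  have hB0 : B ≠ 0 := by
    intro h
    have := hAB.2
    omega
  -- the odd part
  obtain ⟨d, hd⟩ : ∃ d : ℤ, B = 2 * d := ⟨B / 2, by omega⟩
  have hdo : d % 2 = 1 := by
    have := hAB.2
    omega
  have hrn := recip_nat hk hko h5 hχ hv hB0 d.natAbs (by omega) (by
    rw [Int.natAbs_dvd, ← hB, hd]
    exact Dvd.intro_left _ rfl)
  -- c
  have hc : ∃ c : ℤ, c % 4 = 1 ∧ c ^ 2 = d ^ 2 ∧ (c : ZMod p) ^ k = 1 := by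
    have hda : (d.natAbs : ℤ) = d ∨ (d.natAbs : ℤ) = -d := by omega
    have hsq : ((d.natAbs : ℤ)) ^ 2 = d ^ 2 := by
      rcases hda with h | h <;> rw [h] <;> ring
    by_cases h4 : d.natAbs % 4 = 1
    · refine ⟨(d.natAbs : ℤ), by omega, hsq, ?_⟩
      rw [if_pos h4] at hrn
      rw [Int.cast_natCast]
      exact hrn
    · refine ⟨-(d.natAbs : ℤ), by omega, by rw [neg_pow, hsq]; ring, ?_⟩
      rw [if_neg h4] at hrn
      rw [Int.cast_neg, Int.cast_natCast, neg_pow, hrn, Odd.neg_one_pow (Nat.odd_iff.mpr hko)]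
      norm_num
  obtain ⟨c, hc1, hc2, hc3⟩ := hc
  refine ⟨-A, c, by omega, hc1, ?_, ?_, hc3⟩
  · rw [← hn, hd, hc2]
    ring
  · push_cast
    linear_combination (-1 : ZMod p) * hg

variable {w : ZMod p}

/-- **The missing residue.** -/
theorem Ext.explicit (E : Ext p w) (h5 : 5 < p) {k : ℕ} (hk : p = 4 * k + 1) :
    ∃ a c : ℤ, a % 4 = 1 ∧ c % 4 = 1 ∧ (p : ℤ) = a ^ 2 + 4 * c ^ 2 ∧
      2 * (c : ZMod p) * w = (a : ZMod p) ∧
      4 * (c : ZMod p) * (ft p k * ft p k) = -1 ∧ (a : ZMod p) ≠ 0 ∧ (c : ZMod p) ≠ 0 := by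
  have h8 := E.mod_eight h5
  obtain ⟨t, ht⟩ : ∃ t : ℕ, k = 2 * t + 1 := ⟨k / 2, by omega⟩
  have hko : k % 2 = 1 := by omega
  obtain ⟨a, c, ha, hc, hpe, hg, hck⟩ := exists_ac hk hko h5
  have h2 := two_ne (p := p) h5
  have hr := E.r_sq h5
  have hw := E.w_eq h5
  rw [show (p - 1) / 2 = 2 * k by omega] at hr hw
  have hq := E.qc_quarter h5 (t := t) (by omega)
  rw [← ht] at hq
  have hq0 : ft p k ≠ 0 := ft_ne_zero (by omega)
  have hqk : (ft p k) ^ (2 * k) = 1 := by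
    have h3 := quadraticChar_eq_pow_of_char_ne_two' (F := ZMod p)
      (by rw [ZMod.ringChar_zmod_n]; omega) (ft p k)
    rw [ZMod.card, show p / 2 = 2 * k by omega] at h3
    rw [← h3]
    unfold qc at hq
    rw [hq]
    norm_num
  -- (2 c r)² = a²
  have hpz : (a : ZMod p) ^ 2 + 4 * (c : ZMod p) ^ 2 = 0 := by
    have h3 := congrArg (fun z : ℤ => (z : ZMod p)) hpe
    push_cast at h3
    rw [← h3]
    exact ZMod.natCast_self p
  have h3 : (2 * (c : ZMod p) * ft p (2 * k) - a) * (2 * (c : ZMod p) * ft p (2 * k) + a) = 0 := by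
    linear_combination 4 * (c : ZMod p) ^ 2 * hr - hpz
  have hr0 : ft p (2 * k) ≠ 0 := ft_ne_zero (by omega)
  have ha0 : (a : ZMod p) ≠ 0 := by
    intro h
    rw [h] at hg
    apply hr0
    rw [← hg]
    ring
  have hc0 : (c : ZMod p) ≠ 0 := by
    intro h
    rw [h, zero_pow (by omega)] at hck
    exact zero_ne_one hck
  have hmain : 2 * (c : ZMod p) * ft p (2 * k) = -a := by
    rcases mul_eq_zero.mp h3 with h4 | h4
    · exfalso
      have h6 : 4 * (c : ZMod p) * (ft p k * ft p k) = 1 := by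
        apply mul_right_cancel₀ hr0
        linear_combination 2 * (ft p k * ft p k) * h4 + hg
      have h7 := congrArg (fun x => x ^ k) h6
      simp only [one_pow, mul_pow] at h7
      rw [hck, show (4 : ZMod p) ^ k = 2 ^ (2 * k) by rw [pow_mul]; norm_num,
        two_pow_half hk hko h5, ← mul_pow, ← pow_two, ← pow_mul, hqk] at h7
      apply h2
      linear_combination (-1 : ZMod p) * h7
    · linear_combination h4
  refine ⟨a, c, ha, hc, hpe, ?_, ?_, ha0, hc0⟩
  · rw [hw]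
    linear_combination (-1 : ZMod p) * hmain
  · apply mul_right_cancel₀ hr0
    linear_combination 2 * (ft p k * ft p k) * hmain - hg

end Pool.Agent.NEC
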