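import Pool.Agent.NEC.Expl

/-!
# NEC: thin families of non-extremal primes

`p = a² + 4 c²` is not extremal if `c` is `(3 · 7 · 11 ⋯ (4j-5))²` with `j` odd, or if `c = -3`.
-/

set_option autoImplicit false

namespace Pool.Agent.NEC

open Finset

variable {p : ℕ} [hp : Fact p.Prime]

/-- `1 · 5 · 9 ⋯ (4j-3)`. -/
def P1 (j : ℕ) : ℕ := ∏ i ∈ range j, (4 * i + 1)

/-- `3 · 7 · 11 ⋯ (4j-5)`. -/
def S3 (j : ℕ) : ℕ := ∏ i ∈ range (j - 1), (4 * i + 3)

theorem quarter_down {k : ℕ} (hk : p = 4 * k + 1) (j : ℕ) (hj : j ≤ k) :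
    (4 : ZMod p) ^ j * ft p k = (-1) ^ j * (P1 j : ZMod p) * ft p (k - j) := by
  induction j with
  | zero => simp [P1]
  | succ j ih =>
    have ih' := ih (by omega)
    have h1 : k - j = (k - (j + 1)) + 1 := by omega
    rw [h1, ft_succ] at ih'
    have h2 : (4 : ZMod p) * (((k - (j + 1) : ℕ) : ZMod p) + 1) = -(4 * (j : ZMod p) + 1) := by
      have h3 : ((4 * ((k - (j + 1)) + 1) + (4 * j + 1) : ℕ) : ZMod p) = 0 := by
        rw [show 4 * ((k - (j + 1)) + 1) + (4 * j + 1) = p by omega]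
        exact ZMod.natCast_self p
      push_cast at h3
      linear_combination h3
    unfold P1 at ih' ⊢
    rw [prod_range_succ, pow_succ, pow_succ]
    push_cast at ih' ⊢
    linear_combination (4 : ZMod p) * ih' +
      (-1) ^ j * (∏ x ∈ range j, (4 * (x : ZMod p) + 1)) * ft p (k - (j + 1)) * h2

theorem half_down {k : ℕ} (hk : p = 4 * k + 1) (m : ℕ) (hm : m ≤ 2 * k) :
    (2 : ZMod p) ^ m * ft p (2 * k) =
      (-1) ^ m * ((∏ i ∈ range m, (2 * i + 1) : ℕ) : ZMod p) * ft p (2 * k - m) := by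
  induction m with
  | zero => simp
  | succ m ih =>
    have ih' := ih (by omega)
    have h1 : 2 * k - m = (2 * k - (m + 1)) + 1 := by omega
    rw [h1, ft_succ] at ih'
    have h2 : (2 : ZMod p) * (((2 * k - (m + 1) : ℕ) : ZMod p) + 1) = -(2 * (m : ZMod p) + 1) := by
      have h3 : ((2 * ((2 * k - (m + 1)) + 1) + (2 * m + 1) : ℕ) : ZMod p) = 0 := by
        rw [show 2 * ((2 * k - (m + 1)) + 1) + (2 * m + 1) = p by omega]
        exact ZMod.natCast_self p
      push_cast at h3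
      linear_combination h3
    rw [prod_range_succ, pow_succ, pow_succ]
    push_cast at ih' ⊢
    linear_combination (2 : ZMod p) * ih' +
      (-1) ^ m * (∏ x ∈ range m, (2 * (x : ZMod p) + 1)) * ft p (2 * k - (m + 1)) * h2

theorem prod_split (j : ℕ) : ∏ i ∈ range (2 * (j + 1) - 1), (2 * i + 1) = P1 (j + 1) * S3 (j + 1) := by
  unfold P1 S3
  induction j with
  | zero => simp
  | succ j ih =>
    rw [show 2 * (j + 1 + 1) - 1 = (2 * (j + 1) - 1) + 1 + 1 by omega, prod_range_succ,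
      prod_range_succ, ih, prod_range_succ (fun i => 4 * i + 1) (j + 1),
      show j + 1 + 1 - 1 = (j + 1 - 1) + 1 by omega, prod_range_succ (fun i => 4 * i + 3) (j + 1 - 1)]
    rw [show 2 * (2 * (j + 1) - 1) + 1 = 4 * (j + 1 - 1) + 3 by omega,
      show 2 * (2 * (j + 1) - 1 + 1) + 1 = 4 * (j + 1) + 1 by omega]
    ring

theorem le_S3 (j : ℕ) : j + 1 ≤ S3 (j + 1) := by
  unfold S3
  induction j with
  | zero => simp
  | succ j ih =>
    rw [show j + 1 + 1 - 1 = (j + 1 - 1) + 1 by omega, prod_range_succ]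
    have : (j + 1) * 3 ≤ (∏ x ∈ range (j + 1 - 1), (4 * x + 3)) * (4 * (j + 1 - 1) + 3) :=
      Nat.mul_le_mul ih (by omega)
    omega

variable {w : ZMod p}

theorem Ext.fam (E : Ext p w) (h5 : 5 < p) {k : ℕ} (hk : p = 4 * k + 1) {a c : ℤ}
    (ha : a % 4 = 1) (hpe : (p : ℤ) = a ^ 2 + 4 * c ^ 2)
    (hq : 4 * (c : ZMod p) * (ft p k * ft p k) = -1) (hc0 : (c : ZMod p) ≠ 0)
    {j : ℕ} (hj : j % 2 = 1) : c ≠ (S3 j : ℤ) ^ 2 := by
  intro hc
  have h8 := E.mod_eight h5
  have h2 := two_ne (p := p) h5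
  have hr := E.r_sq h5
  rw [show (p - 1) / 2 = 2 * k by omega] at hr
  obtain ⟨i, hi⟩ : ∃ i, j = i + 1 := ⟨j - 1, by omega⟩
  have hle := le_S3 i
  rw [← hi] at hle
  -- j < k
  have hjk : j < k := by
    have hp' : (4 * (k : ℤ) + 1) = a ^ 2 + 4 * ((S3 j : ℤ) ^ 2) ^ 2 := by
      rw [← hc, ← hpe, hk]
      push_cast
      ring
    have h6 : (1 : ℤ) ≤ a ^ 2 := by
      have h7 : a ≠ 0 := by omega
      have h9 := sq_nonneg a
      have h10 : a ^ 2 ≠ 0 := pow_ne_zero 2 h7
      omega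
    have hkS : (S3 j : ℤ) ^ 4 ≤ (k : ℤ) := by nlinarith
    have hkS' : (S3 j) ^ 4 ≤ k := by exact_mod_cast hkS
    rcases Nat.lt_or_ge (S3 j) 2 with h7 | h7
    · omega
    · have h9 : (S3 j) ^ 1 < (S3 j) ^ 4 := Nat.pow_lt_pow_right (by omega) (by norm_num)
      rw [pow_one] at h9
      omega
  have e1 := quarter_down hk j (by omega)
  have e2 := half_down hk (2 * j - 1) (by omega)
  have e3 := prod_split i
  rw [← hi] at e3
  rw [e3] at e2
  have hS0 : (S3 j : ZMod p) ≠ 0 := by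
    intro h
    apply hc0
    rw [hc]
    push_cast
    rw [h]
    ring
  have h40 : (4 : ZMod p) ^ j ≠ 0 := by
    rw [show (4 : ZMod p) = 2 * 2 by norm_num]
    exact pow_ne_zero _ (mul_ne_zero h2 h2)
  have hq0 : ft p k ≠ 0 := ft_ne_zero (by omega)
  have hP0 : (P1 j : ZMod p) ≠ 0 := by
    intro h
    rw [h] at e1
    simp only [mul_zero, zero_mul] at e1
    exact mul_ne_zero h40 hq0 e1
  have hodd : (-1 : ZMod p) ^ j = -1 := Odd.neg_one_pow (Nat.odd_iff.mpr hj)
  have hodd2 : (-1 : ZMod p) ^ (2 * j - 1) = -1 := Odd.neg_one_pow (Nat.odd_iff.mpr (by omega))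
  rw [hodd] at e1
  rw [hodd2, show 2 * k - (2 * j - 1) = 2 * k - 2 * j + 1 by omega] at e2
  push_cast at e2
  have h4j : (4 : ZMod p) ^ j = 2 * 2 ^ (2 * j - 1) := by
    rw [show (4 : ZMod p) = 2 ^ 2 by norm_num, ← pow_mul, ← pow_succ',
      show 2 * j - 1 + 1 = 2 * j by omega]
  rw [hc] at hq
  push_cast at hq
  have h3 : (2 * (S3 j : ZMod p) * ft p k - ft p (2 * k)) *
      (2 * (S3 j : ZMod p) * ft p k + ft p (2 * k)) = 0 := by
    linear_combination hq - hr
  -- the two values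
  have hm1 : ft p (2 * k - 2 * j + 1) ≠ 1 := by
    intro h
    rcases E.idx_one h5 (by omega) (by omega) h with h7 | h7 <;> omega
  obtain ⟨n1, n2⟩ := E.par h5 (m := 2 * k - 2 * j + 1) (n := k - j) (by omega) (by omega) hm1
    (by omega) (by omega) (by omega)
  have hD : 2 * (S3 j : ZMod p) * (P1 j : ZMod p) ≠ 0 := mul_ne_zero (mul_ne_zero h2 hS0) hP0
  rcases mul_eq_zero.mp h3 with h4 | h4
  · apply n1
    apply mul_left_cancel₀ hD
    linear_combination (2 * (S3 j : ZMod p)) * e1 - 2 * e2 - (4 : ZMod p) ^ j * h4 -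
      ft p (2 * k) * h4j
  · apply n2
    apply mul_left_cancel₀ hD
    linear_combination (2 * (S3 j : ZMod p)) * e1 + 2 * e2 - (4 : ZMod p) ^ j * h4 +
      ft p (2 * k) * h4j

/-- Triplication: `(3N)! (4n)! (8n)! = 27^N N! (N+4n)! (N+8n)!` modulo `p = 12 n + 1`. -/
theorem triple {n : ℕ} (hn : p = 12 * n + 1) (N : ℕ) :
    ft p (3 * N) * (ft p (4 * n) * ft p (8 * n)) =
      27 ^ N * ft p N * ft p (N + 4 * n) * ft p (N + 8 * n) := by
  induction N with
  | zero => simp [ft_zero]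
  | succ N ih =>
    rw [show 3 * (N + 1) = (3 * N + 1 + 1) + 1 by ring, ft_succ, ft_succ, ft_succ, ft_succ,
      show N + 1 + 4 * n = (N + 4 * n) + 1 by ring, ft_succ,
      show N + 1 + 8 * n = (N + 8 * n) + 1 by ring, ft_succ, pow_succ]
    have h3 : ((12 * n + 1 : ℕ) : ZMod p) = 0 := by
      rw [← hn]
      exact ZMod.natCast_self p
    push_cast at h3 ⊢
    have h4 : (3 : ZMod p) * ((N : ZMod p) + 4 * n + 1) = 3 * N + 2 := by
      linear_combination h3
    have h5 : (3 : ZMod p) * ((N : ZMod p) + 8 * n + 1) = 3 * N + 1 := by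
      linear_combination 2 * h3
    have h6 : (27 : ZMod p) * ((N : ZMod p) + 1) * ((N : ZMod p) + 4 * n + 1) *
        ((N : ZMod p) + 8 * n + 1) = (3 * N + 3) * (3 * N + 2) * (3 * N + 1) := by
      rw [← h4, ← h5]
      ring
    linear_combination (3 * (N : ZMod p) + 3) * (3 * N + 2) * (3 * N + 1) * ih -
      (27 ^ N * ft p N * ft p (N + 4 * n) * ft p (N + 8 * n)) * h6

theorem Ext.fam3 (E : Ext p w) (h5 : 5 < p) {k : ℕ} (hk : p = 4 * k + 1) {a c : ℤ}
    (ha : a % 4 = 1) (hpe : (p : ℤ) = a ^ 2 + 4 * c ^ 2)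
    (hq : 4 * (c : ZMod p) * (ft p k * ft p k) = -1) : c ≠ -3 := by
  intro hc
  have h8 := E.mod_eight h5
  have h2 := two_ne (p := p) h5
  subst hc
  have h12 : p % 12 = 1 := by
    have h3 : a % 3 ≠ 0 := by
      intro h
      have h6 : (p : ℤ) % 3 = 0 := by
        obtain ⟨b, hb⟩ : ∃ b, a = 3 * b := ⟨a / 3, by omega⟩
        rw [hpe, hb]
        ring_nf
        omega
      have h7 : 3 ∣ p := by omega
      have := (Nat.prime_dvd_prime_iff_eq Nat.prime_three hp.out).mp h7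
      omega
    have h6 : (p : ℤ) % 3 = 1 := by
      have h7 : a % 3 = 1 ∨ a % 3 = 2 := by omega
      rw [hpe]
      rcases h7 with h7 | h7
      · obtain ⟨b, hb⟩ : ∃ b, a = 3 * b + 1 := ⟨a / 3, by omega⟩
        rw [hb]
        ring_nf
        omega
      · obtain ⟨b, hb⟩ : ∃ b, a = 3 * b + 2 := ⟨a / 3, by omega⟩
        rw [hb]
        ring_nf
        omega
    omega
  obtain ⟨n, hn⟩ : ∃ n, p = 12 * n + 1 := ⟨p / 12, by omega⟩
  have hkn : k = 3 * n := by omega
  have hno : n % 2 = 1 := by omega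
  have e1 := triple hn n
  have e2 := refl_even (p := p) (n := 4 * n) (by omega) (by omega)
  rw [show p - 1 - 4 * n = 8 * n by omega] at e2
  have e3 := refl_odd (p := p) (n := 3 * n) (by omega) (by omega)
  rw [show p - 1 - 3 * n = 9 * n by omega] at e3
  rw [e2, show n + 4 * n = 5 * n by ring, show n + 8 * n = 9 * n by ring] at e1
  rw [hkn] at hq
  push_cast at hq
  have e4 := refl_even (p := p) (n := n - 1) (by omega) (by omega)
  rw [show p - 1 - (n - 1) = 11 * n + 1 by omega] at e4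
  have e6 : ft p n = (n : ZMod p) * ft p (n - 1) := by
    have h3 := ft_succ (p := p) (n - 1)
    rw [show n - 1 + 1 = n by omega] at h3
    rw [h3, Nat.cast_sub (by omega)]
    push_cast
    ring
  have e7 : (12 : ZMod p) * n = -1 := by
    have h3 : ((12 * n + 1 : ℕ) : ZMod p) = 0 := by
      rw [← hn]
      exact ZMod.natCast_self p
    push_cast at h3
    linear_combination h3
  -- 12 n! (11n+1)! = 1
  have e8 : 12 * ft p n * ft p (11 * n + 1) = 1 := by
    rw [e6]
    linear_combination (ft p (n - 1) * ft p (11 * n + 1)) * e7 - e4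
  -- 27^n = ± 1
  have hq0 : ft p (3 * n) ≠ 0 := ft_ne_zero (by omega)
  have e9 : (27 : ZMod p) ^ n * 27 ^ n = 1 := by
    have h3 : (3 : ZMod p) * (2 * ft p (3 * n)) ^ 2 = 1 := by linear_combination (-1 : ZMod p) * hq
    have h4 : (3 : ZMod p) ^ (6 * n) * ((2 * ft p (3 * n)) ^ 2) ^ (6 * n) = 1 := by
      rw [← mul_pow, h3, one_pow]
    rw [← pow_mul, show 2 * (6 * n) = p - 1 by omega,
      ZMod.pow_card_sub_one_eq_one (mul_ne_zero h2 hq0), mul_one] at h4
    rw [← h4, ← pow_add, show (27 : ZMod p) = 3 ^ 3 by norm_num, ← pow_mul]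
    congr 1
    ring
  have hm1 : ft p (5 * n) ≠ 1 := by
    intro h
    rcases E.idx_one h5 (by omega) (by omega) h with h7 | h7 <;> omega
  obtain ⟨n1, n2⟩ := E.par h5 (m := 5 * n) (n := 11 * n + 1) (by omega) (by omega) hm1
    (by omega) (by omega) (by omega)
  have hn0 : ft p n ≠ 0 := ft_ne_zero (by omega)
  have h12z : (12 : ZMod p) ≠ 0 := by
    intro h
    rw [h] at e7
    simp at e7
  have hD : (12 : ZMod p) * ft p n ≠ 0 := mul_ne_zero h12z hn0
  -- - q = 27^n n! (5n)! (9n)!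
  have e10 : -(ft p (3 * n) * ft p (3 * n)) = 27 ^ n * ft p n * ft p (5 * n) := by
    linear_combination ft p (3 * n) * e1 + (27 ^ n * ft p n * ft p (5 * n)) * e3
  rcases eq_one_or _ e9 with h | h
  · apply n2
    apply mul_left_cancel₀ hD
    rw [h] at e10
    linear_combination e8 + hq - 12 * e10
  · apply n1
    apply mul_left_cancel₀ hD
    rw [h] at e10
    linear_combination e8 + hq - 12 * e10

end Pool.Agent.NEC
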