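import Pool.Agent.NEC.Quart

/-!
# NEC: the Jacobi sum of the quartic character

`J = J(χ, χ) = A + B i` with `A² + B² = p`, `2 A q² = -r` (Gauss's congruence for the binomial
coefficient), `A = 3 mod 4`, `B = 2 mod 4`.
-/

set_option autoImplicit false

namespace Pool.Agent.NEC

open Finset

variable {p : ℕ} [hp : Fact p.Prime]

theorem star_unit4 {u : GaussianInt} (h : u ^ 4 = 1) : star u = u ^ 3 := by
  rcases unit4 h with rfl | rfl | rfl | rfl <;> decide

theorem star_chi {χ : MulChar (ZMod p) GaussianInt} (hχ : orderOf χ = 4) (x : ZMod p) :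
    (χ ^ 3) x = star (χ x) := by
  by_cases hx : x = 0
  · subst hx
    rw [MulChar.map_zero, MulChar.map_zero, star_zero]
  · rw [star_unit4 (chi4 hχ hx), MulChar.pow_apply' _ (by norm_num)]

theorem star_jac {χ : MulChar (ZMod p) GaussianInt} (hχ : orderOf χ = 4) :
    jacobiSum (χ ^ 3) (χ ^ 3) = star (jacobiSum χ χ) := by
  unfold jacobiSum
  rw [star_sum]
  refine sum_congr rfl fun x _ => ?_
  rw [star_chi hχ, star_chi hχ, star_mul, mul_comm]

theorem two_le_p : 2 ≤ p := hp.out.two_le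

theorem jac_norm {χ : MulChar (ZMod p) GaussianInt} (hχ : orderOf χ = 4) (h5 : 5 < p) :
    (jacobiSum χ χ).re ^ 2 + (jacobiSum χ χ).im ^ 2 = (p : ℤ) := by
  have hinj : Function.Injective GaussianInt.toComplex := GaussianInt.toComplex_injective
  have hne : ∀ m : ℕ, 0 < m → m < 4 → χ ^ m ≠ 1 := by
    intro m h1 h2 h
    have := Nat.le_of_dvd h1 (hχ ▸ orderOf_dvd_of_pow_eq_one h)
    omega
  have hrc : ringChar ℂ ≠ ringChar (ZMod p) := by
    rw [ZMod.ringChar_zmod_n, ringChar.eq_zero]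
    omega
  have h1 : (χ.ringHomComp GaussianInt.toComplex) ≠ 1 := by
    rw [Ne, MulChar.ringHomComp_eq_one_iff hinj]
    intro h
    exact hne 1 (by norm_num) (by norm_num) (by rw [h, one_pow])
  have h2 : (χ.ringHomComp GaussianInt.toComplex) * (χ.ringHomComp GaussianInt.toComplex) ≠ 1 := by
    rw [← MulChar.ringHomComp_mul, Ne, MulChar.ringHomComp_eq_one_iff hinj, ← pow_two]
    exact hne 2 (by norm_num) (by norm_num)
  have h3 := jacobiSum_mul_jacobiSum_inv hrc h1 h1 h2
  have h4 : (χ.ringHomComp GaussianInt.toComplex)⁻¹ = (χ ^ 3).ringHomComp GaussianInt.toComplex := by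
    rw [inv_eq_iff_mul_eq_one, ← MulChar.ringHomComp_mul, ← pow_succ',
      show 3 + 1 = orderOf χ by rw [hχ], pow_orderOf_eq_one]
    exact MulChar.ringHomComp_one _
  rw [h4, jacobiSum_ringHomComp, jacobiSum_ringHomComp, star_jac hχ, ← map_mul, ZMod.card,
    ← map_natCast GaussianInt.toComplex] at h3
  have h6 := hinj h3
  have h7 := congrArg Zsqrtd.re h6
  simp only [Zsqrtd.re_mul, Zsqrtd.re_star, Zsqrtd.im_star, Zsqrtd.re_natCast] at h7
  linear_combination h7

theorem sum_pow_x {N : ℕ} (h0 : 0 < N) (h1 : N < 2 * (p - 1)) :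
    ∑ x : ZMod p, x ^ N = if N = p - 1 then -1 else 0 := by
  classical
  let φ : (ZMod p)ˣ ↪ ZMod p := ⟨fun x ↦ x, Units.val_injective⟩
  have this : univ.map φ = univ \ {0} := by
    ext x
    simp only [mem_map, mem_univ, Function.Embedding.coeFn_mk, true_and, mem_sdiff,
      mem_singleton, φ]
    exact isUnit_iff_ne_zero
  have h2 : ∑ x : ZMod p, x ^ N = ∑ x : (ZMod p)ˣ, ((x : ZMod p) ^ N) := by
    calc ∑ x : ZMod p, x ^ N = ∑ x ∈ univ \ {(0 : ZMod p)}, x ^ N := by
          rw [← sum_sdiff ({0} : Finset (ZMod p)).subset_univ, sum_singleton, zero_pow (by omega),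
            add_zero]
      _ = ∑ x : (ZMod p)ˣ, ((x : ZMod p) ^ N) := by simp [φ, ← this, univ.sum_map φ]
  rw [h2, FiniteField.sum_pow_units, ZMod.card]
  by_cases h3 : N = p - 1
  · rw [if_pos h3, if_pos (by rw [h3])]
  · rw [if_neg h3, if_neg]
    rintro ⟨c, hc⟩
    rcases Nat.lt_or_ge c 1 with h4 | h4
    · have : c = 0 := by omega
      subst this
      omega
    rcases Nat.lt_or_ge c 2 with h5 | h5
    · have : c = 1 := by omega
      subst this
      omega
    · have := Nat.mul_le_mul_left (p - 1) h5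
      omega

theorem sum_beta {a b : ℕ} (ha : 0 < a) (hab : a + b < 2 * (p - 1)) :
    ∑ x : ZMod p, x ^ a * (1 - x) ^ b =
      ∑ m ∈ range (b + 1), ((-1) ^ m * ((b.choose m : ℕ) : ZMod p)) *
        (if a + m = p - 1 then -1 else 0) := by
  have h1 : ∀ x : ZMod p, x ^ a * (1 - x) ^ b =
      ∑ m ∈ range (b + 1), ((-1) ^ m * ((b.choose m : ℕ) : ZMod p)) * x ^ (a + m) := by
    intro x
    rw [show (1 - x) = (-x) + 1 by ring, add_pow, mul_sum]
    refine sum_congr rfl fun m _ => ?_
    rw [one_pow, neg_pow, pow_add]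
    ring
  rw [sum_congr rfl (fun x _ => h1 x), sum_comm]
  refine sum_congr rfl fun m hm => ?_
  rw [mem_range] at hm
  rw [← mul_sum, sum_pow_x (by omega) (by omega)]

/-- The Jacobi sum modulo `p`, and Gauss's congruence: `2 A q² = -r` for `q = ((p-1)/4)!`,
`r = ((p-1)/2)!`. -/
theorem gauss_congr {k : ℕ} (hk : p = 4 * k + 1) (hko : k % 2 = 1) (h5 : 5 < p)
    {χ : MulChar (ZMod p) GaussianInt} {s : ZMod p} {hs : s * s = -1} (hχ : orderOf χ = 4)
    (hv : ∀ x : ZMod p, gi s hs (χ x) = x ^ k) :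
    ((jacobiSum χ χ).re : ZMod p) + ((jacobiSum χ χ).im : ZMod p) * s = 0 ∧
      2 * ((jacobiSum χ χ).re : ZMod p) * (ft p k * ft p k) = - ft p (2 * k) := by
  have hk1 : 0 < k := by omega
  -- first congruence
  have h1 : gi s hs (jacobiSum χ χ) = 0 := by
    unfold jacobiSum
    rw [map_sum]
    have h2 : ∀ x : ZMod p, gi s hs (χ x * χ (1 - x)) = x ^ k * (1 - x) ^ k := by
      intro x
      rw [map_mul, hv, hv]
    rw [sum_congr rfl (fun x _ => h2 x), sum_beta hk1 (by omega)]
    refine sum_eq_zero fun m hm => ?_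
    rw [mem_range] at hm
    rw [if_neg (by omega), mul_zero]
  -- second congruence
  have h3 : gi s hs (star (jacobiSum χ χ)) = ((3 * k).choose k : ZMod p) := by
    rw [← star_jac hχ]
    unfold jacobiSum
    rw [map_sum]
    have h2 : ∀ x : ZMod p, gi s hs ((χ ^ 3) x * (χ ^ 3) (1 - x)) =
        x ^ (3 * k) * (1 - x) ^ (3 * k) := by
      intro x
      rw [map_mul, MulChar.pow_apply' _ (by norm_num), MulChar.pow_apply' _ (by norm_num), map_pow,
        map_pow, hv, hv, ← pow_mul, ← pow_mul, mul_comm k 3]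
    rw [sum_congr rfl (fun x _ => h2 x), sum_beta (by omega) (by omega)]
    rw [sum_eq_single k]
    · rw [if_pos (by omega), Odd.neg_one_pow (Nat.odd_iff.mpr hko)]
      ring
    · intro m hm hmk
      rw [if_neg (by omega), mul_zero]
    · intro h
      exfalso
      apply h
      rw [mem_range]
      omega
  rw [gi_apply] at h1 h3
  rw [Zsqrtd.re_star, Zsqrtd.im_star] at h3
  push_cast at h3
  refine ⟨h1, ?_⟩
  have h4 : ((3 * k).choose k : ZMod p) * (ft p k * ft p (2 * k)) = ft p (3 * k) := by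
    have h6 := Nat.choose_mul_factorial_mul_factorial (n := 3 * k) (k := k) (by omega)
    rw [show 3 * k - k = 2 * k by omega] at h6
    unfold ft
    rw [← h6]
    push_cast
    ring
  have h6 := refl_odd (p := p) (n := k) (by omega) hko
  rw [show p - 1 - k = 3 * k by omega] at h6
  have h7 := refl_even (p := p) (n := 2 * k) (by omega) (by omega)
  rw [show p - 1 - 2 * k = 2 * k by omega] at h7
  have h8 : 2 * ((jacobiSum χ χ).re : ZMod p) = ((3 * k).choose k : ZMod p) := by
    linear_combination h1 + h3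
  rw [h8]
  linear_combination (-ft p (2 * k)) * ft p k * h4 - ft p (2 * k) * h6 +
    ((3 * k).choose k : ZMod p) * (ft p k * ft p k) * h7

/-- The values of the summand: `h(x) = χ(x) χ(1-x)`. -/
theorem unit4_re_im {u : GaussianInt} (h : u ^ 4 = 1) :
    ((2 * (u.re - u.im) : ℤ) : ZMod 4) = 2 ∧ u ≠ 0 := by
  rcases unit4 h with rfl | rfl | rfl | rfl <;> exact ⟨by decide, by decide⟩

theorem two_pow_half {k : ℕ} (hk : p = 4 * k + 1) (hko : k % 2 = 1) (h5 : 5 < p) :
    (2 : ZMod p) ^ (2 * k) = -1 := by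
  have h0 := two_ne (p := p) h5
  have h1 : ¬ IsSquare (2 : ZMod p) := by
    rw [ZMod.exists_sq_eq_two_iff (by omega)]
    omega
  have h2 := ZMod.euler_criterion p h0
  have h3 := ZMod.pow_div_two_eq_neg_one_or_one p h0
  rw [show p / 2 = 2 * k by omega] at h2 h3
  rcases h3 with h3 | h3
  · exact absurd (h2.mpr h3) h1
  · exact h3

theorem chi_half {k : ℕ} (hk : p = 4 * k + 1) (hko : k % 2 = 1) (h5 : 5 < p)
    {χ : MulChar (ZMod p) GaussianInt} {s : ZMod p} {hs : s * s = -1} (hχ : orderOf χ = 4)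
    (hv : ∀ x : ZMod p, gi s hs (χ x) = x ^ k) :
    χ (2⁻¹) * χ (2⁻¹) = -1 := by
  have h2 := two_ne (p := p) h5
  have h0 : (2⁻¹ : ZMod p) * 2⁻¹ ≠ 0 := mul_ne_zero (inv_ne_zero h2) (inv_ne_zero h2)
  rw [← map_mul]
  apply gi_inj4 h2 s hs (chi4 hχ h0) (by norm_num)
  rw [hv, map_neg, map_one, mul_pow, ← pow_add, show k + k = 2 * k by ring, inv_pow,
    two_pow_half hk hko h5]
  norm_num

/-- The imaginary part of the Jacobi sum is even. -/
theorem jac_im {k : ℕ} (hk : p = 4 * k + 1) (hko : k % 2 = 1) (h5 : 5 < p)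
    {χ : MulChar (ZMod p) GaussianInt} {s : ZMod p} {hs : s * s = -1} (hχ : orderOf χ = 4)
    (hv : ∀ x : ZMod p, gi s hs (χ x) = x ^ k) :
    (((jacobiSum χ χ).im : ℤ) : ZMod 2) = 0 := by
  classical
  have h2 := two_ne (p := p) h5
  set v : ZMod p → ZMod 2 := fun x => (((χ x * χ (1 - x)).im : ℤ) : ZMod 2) with hvd
  have him : ∀ (S : Finset (ZMod p)) (f : ZMod p → GaussianInt),
      (∑ x ∈ S, f x).im = ∑ x ∈ S, (f x).im := by
    intro S f
    induction S using Finset.induction_on with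
    | empty => simp
    | insert a S ha ih => rw [sum_insert ha, sum_insert ha, Zsqrtd.im_add, ih]
  have e1 : (((jacobiSum χ χ).im : ℤ) : ZMod 2) = ∑ x : ZMod p, v x := by
    unfold jacobiSum
    rw [him, Int.cast_sum]
  have eh : v 2⁻¹ = 0 := by
    have h3 : (1 : ZMod p) - 2⁻¹ = 2⁻¹ := by
      rw [sub_eq_iff_eq_add, ← two_mul, mul_inv_cancel₀ h2]
    simp only [hvd]
    rw [h3, chi_half hk hko h5 hχ hv]
    decide
  rw [e1, ← add_sum_erase univ v (mem_univ 2⁻¹), eh, zero_add]
  refine sum_involution (fun x _ => 1 - x) ?_ ?_ ?_ ?_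
  · intro x _
    have h3 : v (1 - x) = v x := by
      simp only [hvd]
      rw [sub_sub_cancel, mul_comm]
    rw [h3]
    generalize v x = y
    revert y
    decide
  · intro x hx _ h
    rw [mem_erase] at hx
    apply hx.1
    have h3 : 2 * x = 1 := by linear_combination (-1 : ZMod p) * h
    apply mul_left_cancel₀ h2
    rw [mul_inv_cancel₀ h2]
    linear_combination h3
  · intro x hx
    rw [mem_erase] at hx ⊢
    refine ⟨?_, mem_univ _⟩
    intro h
    apply hx.1
    have h3 : (2 : ZMod p) * 2⁻¹ = 1 := mul_inv_cancel₀ h2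
    linear_combination (-1 : ZMod p) * h - h3
  · intro x hx
    ring

/-- The Jacobi sum modulo 4. -/
theorem jac_mod {k : ℕ} (hk : p = 4 * k + 1) (hko : k % 2 = 1) (h5 : 5 < p)
    {χ : MulChar (ZMod p) GaussianInt} {s : ZMod p} {hs : s * s = -1} (hχ : orderOf χ = 4)
    (hv : ∀ x : ZMod p, gi s hs (χ x) = x ^ k) :
    (((jacobiSum χ χ).re - (jacobiSum χ χ).im : ℤ) : ZMod 4) = 1 := by
  classical
  have h2 := two_ne (p := p) h5
  set v : ZMod p → ZMod 4 := fun x => (((χ x * χ (1 - x)).re - (χ x * χ (1 - x)).im : ℤ) : ZMod 4)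
    with hvd
  have e1 : (((jacobiSum χ χ).re - (jacobiSum χ χ).im : ℤ) : ZMod 4) = ∑ x : ZMod p, v x := by
    unfold jacobiSum
    have hre : ∀ (S : Finset (ZMod p)) (f : ZMod p → GaussianInt),
        (∑ x ∈ S, f x).re = ∑ x ∈ S, (f x).re := by
      intro S f
      induction S using Finset.induction_on with
      | empty => simp
      | insert a S ha ih => rw [sum_insert ha, sum_insert ha, Zsqrtd.re_add, ih]
    have him : ∀ (S : Finset (ZMod p)) (f : ZMod p → GaussianInt),
        (∑ x ∈ S, f x).im = ∑ x ∈ S, (f x).im := by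
      intro S f
      induction S using Finset.induction_on with
      | empty => simp
      | insert a S ha ih => rw [sum_insert ha, sum_insert ha, Zsqrtd.im_add, ih]
    rw [hre, him, ← sum_sub_distrib, Int.cast_sum]
  have hz : χ (0 : ZMod p) = 0 := MulChar.map_zero χ
  have e0 : v 0 = 0 := by
    simp only [hvd]
    rw [hz, zero_mul]
    simp
  have e01 : v 1 = 0 := by
    simp only [hvd]
    rw [sub_self, hz, mul_zero]
    simp
  have eh : v 2⁻¹ = -1 := by
    have h3 : (1 : ZMod p) - 2⁻¹ = 2⁻¹ := by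
      rw [sub_eq_iff_eq_add, ← two_mul, mul_inv_cancel₀ h2]
    simp only [hvd]
    rw [h3, chi_half hk hko h5 hχ hv]
    decide
  have hsub : ∀ x : ZMod p, x ≠ 0 → x ≠ 1 → 2 * v x = 2 := by
    intro x hx0 hx1
    have h3 : (χ x * χ (1 - x)) ^ 4 = 1 := by
      rw [mul_pow, chi4 hχ hx0, chi4 hχ (sub_ne_zero.mpr (Ne.symm hx1)), one_mul]
    have h4 := (unit4_re_im h3).1
    have h6 : 2 * v x =
        ((2 * ((χ x * χ (1 - x)).re - (χ x * χ (1 - x)).im) : ℤ) : ZMod 4) := by
      simp only [hvd]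
      rw [Int.cast_mul]
      rfl
    rw [h6, h4]
  set T : Finset (ZMod p) := ((univ.erase 0).erase 1).erase 2⁻¹ with hT
  have h1mem : (1 : ZMod p) ∈ (univ : Finset (ZMod p)).erase 0 := by
    rw [mem_erase]; exact ⟨one_ne_zero, mem_univ _⟩
  have h2mem : (2⁻¹ : ZMod p) ∈ ((univ : Finset (ZMod p)).erase 0).erase 1 := by
    rw [mem_erase, mem_erase]
    refine ⟨?_, inv_ne_zero h2, mem_univ _⟩
    intro h
    have h3 : (2 : ZMod p) * 2⁻¹ = 1 := mul_inv_cancel₀ h2
    rw [h, mul_one] at h3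
    exact one_ne_zero (α := ZMod p) (by linear_combination h3)
  have e2 : ∑ x : ZMod p, v x = -1 + ∑ x ∈ T, v x := by
    rw [← add_sum_erase univ v (mem_univ 0), ← add_sum_erase _ v h1mem, ← add_sum_erase _ v h2mem,
      e0, e01, eh]
    ring
  have hcard : T.card = p - 3 := by
    rw [hT, card_erase_of_mem h2mem, card_erase_of_mem h1mem, card_erase_of_mem (mem_univ _),
      card_univ, ZMod.card]
    omega
  have e3 : ∑ x ∈ T, (v x - 1) = 0 := by
    refine sum_involution (fun x _ => 1 - x) ?_ ?_ ?_ ?_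
    · intro x hx
      rw [hT, mem_erase, mem_erase, mem_erase] at hx
      have h3 : v (1 - x) = v x := by
        simp only [hvd]
        rw [sub_sub_cancel, mul_comm]
      rw [h3]
      have := hsub x hx.2.2.1 hx.2.1
      linear_combination this
    · intro x hx _ h
      rw [hT, mem_erase] at hx
      apply hx.1
      have h3 : 2 * x = 1 := by linear_combination (-1 : ZMod p) * h
      apply mul_left_cancel₀ h2
      rw [mul_inv_cancel₀ h2]
      linear_combination h3
    · intro x hx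
      rw [hT, mem_erase, mem_erase, mem_erase] at hx ⊢
      refine ⟨?_, ?_, ?_, mem_univ _⟩
      · intro h
        apply hx.1
        have h3 : (2 : ZMod p) * 2⁻¹ = 1 := mul_inv_cancel₀ h2
        linear_combination (-1 : ZMod p) * h - h3
      · intro h
        apply hx.2.2.1
        linear_combination (-1 : ZMod p) * h
      · intro h
        apply hx.2.1
        linear_combination (-1 : ZMod p) * h
    · intro x hx
      ring
  rw [sum_sub_distrib, sum_const, hcard] at e3
  rw [e1, e2]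
  have h7 : ∑ x ∈ T, v x = ((p - 3 : ℕ) : ZMod 4) := by
    have h8 : (p - 3) • (1 : ZMod 4) = ((p - 3 : ℕ) : ZMod 4) := by simp
    rw [← h8]
    linear_combination e3
  rw [h7, show p - 3 = 4 * (k - 1) + 2 by omega]
  push_cast
  have h9 : (4 : ZMod 4) = 0 := by decide
  rw [h9, zero_mul]
  decide

end Pool.Agent.NEC
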