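import Pool.Agent.NEC.Fam

/-!
# NEC: the main theorem
-/

set_option autoImplicit false

namespace Pool.Agent.NEC

open Finset

/-- Uniqueness of `a`, `c` with `a = c = 1 mod 4` and `p = a² + 4 c²`. -/
theorem uniq_ac {p : ℕ} (hp : p.Prime) (h4 : p % 4 = 1) {a c a' c' : ℤ} (ha : a % 4 = 1)
    (hc : c % 4 = 1) (h : (p : ℤ) = a ^ 2 + 4 * c ^ 2) (ha' : a' % 4 = 1)
    (hc' : c' % 4 = 1) (h' : (p : ℤ) = a' ^ 2 + 4 * c' ^ 2) : a' = a ∧ c' = c := by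
  have hp0 : (0 : ℤ) < p := by exact_mod_cast hp.pos
  have hpr : Prime (p : ℤ) := Nat.prime_iff_prime_int.mp hp
  have e1 : (a * a' + 4 * c * c') ^ 2 + 4 * (a * c' - a' * c) ^ 2 = (p : ℤ) ^ 2 := by
    calc (a * a' + 4 * c * c') ^ 2 + 4 * (a * c' - a' * c) ^ 2
        = (a ^ 2 + 4 * c ^ 2) * (a' ^ 2 + 4 * c' ^ 2) := by ring
      _ = (p : ℤ) ^ 2 := by rw [← h, ← h']; ring
  have e2 : (a * a' - 4 * c * c') ^ 2 + 4 * (a * c' + a' * c) ^ 2 = (p : ℤ) ^ 2 := by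
    calc (a * a' - 4 * c * c') ^ 2 + 4 * (a * c' + a' * c) ^ 2
        = (a ^ 2 + 4 * c ^ 2) * (a' ^ 2 + 4 * c' ^ 2) := by ring
      _ = (p : ℤ) ^ 2 := by rw [← h, ← h']; ring
  have e3 : (p : ℤ) ∣ (a * c' - a' * c) * (a * c' + a' * c) := by
    refine ⟨c' ^ 2 - c ^ 2, ?_⟩
    linear_combination (c ^ 2 : ℤ) * h' - (c' ^ 2 : ℤ) * h
  have small : ∀ x y : ℤ, y ^ 2 + 4 * x ^ 2 = (p : ℤ) ^ 2 → (p : ℤ) ∣ x → x = 0 := by
    intro x y hxy hd
    by_contra hx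
    have h1 : (p : ℤ) ≤ |x| := Int.le_of_dvd (abs_pos.mpr hx) ((dvd_abs _ _).mpr hd)
    have h2 : (p : ℤ) ^ 2 ≤ x ^ 2 := by
      rw [← sq_abs x]
      exact pow_le_pow_left₀ hp0.le h1 2
    nlinarith [sq_nonneg y]
  rcases hpr.dvd_or_dvd e3 with h1 | h1
  · have h2 := small _ _ e1 h1
    rw [h2] at e1
    have h3 : (a * a' + 4 * c * c' - p) * (a * a' + 4 * c * c' + p) = 0 := by
      linear_combination e1
    have h6 : (a * a' + 4 * c * c') % 4 = 1 := by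
      have h7 : (a * a') % 4 = 1 := by rw [Int.mul_emod, ha, ha']; norm_num
      have h8 : (4 * c * c') % 4 = 0 := by
        rw [mul_assoc]
        exact Int.mul_emod_right 4 _
      omega
    have h7 : a * a' + 4 * c * c' = p := by
      rcases mul_eq_zero.mp h3 with h8 | h8
      · linarith
      · exfalso
        omega
    have h8 : (a' - a) ^ 2 + 4 * (c' - c) ^ 2 = 0 := by
      linear_combination (-2 : ℤ) * h7 - h - h'
    have h9 : (a' - a) ^ 2 = 0 := by nlinarith [sq_nonneg (a' - a), sq_nonneg (c' - c)]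
    have h10 : (c' - c) ^ 2 = 0 := by nlinarith [sq_nonneg (a' - a), sq_nonneg (c' - c)]
    have h11 := pow_eq_zero_iff (two_ne_zero) |>.mp h9
    have h12 := pow_eq_zero_iff (two_ne_zero) |>.mp h10
    exact ⟨by linarith, by linarith⟩
  · exfalso
    have h2 := small _ _ e2 h1
    have h3 : (a * c') % 4 = 1 := by rw [Int.mul_emod, ha, hc']; norm_num
    have h6 : (a' * c) % 4 = 1 := by rw [Int.mul_emod, ha', hc]; norm_num
    omega

/-- The main theorem of the project NEC. -/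
theorem main (p : ℕ) (hp : p.Prime) (h5 : 5 < p) (h : (V p).ncard = p - 2) :
    ∃ a c : ℤ, a % 4 = 1 ∧ c % 4 = 1 ∧ (p : ℤ) = a ^ 2 + 4 * c ^ 2 ∧
      (∀ a' c' : ℤ, a' % 4 = 1 → c' % 4 = 1 → (p : ℤ) = a' ^ 2 + 4 * c' ^ 2 → a' = a ∧ c' = c) ∧
      (c : ZMod p) ≠ 0 ∧
      (∀ w : ZMod p, w ≠ 0 → w ∉ V p → 2 * (c : ZMod p) * w = (a : ZMod p)) ∧
      IsSquare ((((p - 1) / 4).factorial : ℕ) : ZMod p) ∧
      4 * (c : ZMod p) * ((((p - 1) / 4).factorial : ℕ) : ZMod p) ^ 2 = -1 ∧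
      c ≠ -3 ∧
      ∀ j : ℕ, Odd j → c ≠ ((∏ i ∈ Finset.range (j - 1), (4 * i + 3) : ℕ) : ℤ) ^ 2 := by
  have : Fact p.Prime := ⟨hp⟩
  obtain ⟨w, E, hwV⟩ := ext_of_ncard (by omega) h
  have h8 := E.mod_eight h5
  obtain ⟨k, hk⟩ : ∃ k, p = 4 * k + 1 := ⟨p / 4, by omega⟩
  obtain ⟨a, c, ha, hc, hpe, hw, hq, ha0, hc0⟩ := E.explicit h5 hk
  refine ⟨a, c, ha, hc, hpe, ?_, hc0, ?_, ?_, ?_, ?_, ?_⟩
  · intro a' c' ha' hc' h'
    exact uniq_ac hp (by omega) ha hc hpe ha' hc' h'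
  · intro x hx hxV
    have hxw : x = w := by
      by_contra hne
      obtain ⟨n, hn1, hn2, hn⟩ := E.surj x hx hne
      exact hxV ⟨hx, n, hn⟩
    rw [hxw]
    exact hw
  · have hq2 := E.qc_quarter h5 (t := k / 2) (by omega)
    rw [show 2 * (k / 2) + 1 = k by omega] at hq2
    rw [show (p - 1) / 4 = k by omega]
    have h0 : ft p k ≠ 0 := ft_ne_zero (by omega)
    unfold qc at hq2
    exact (quadraticChar_one_iff_isSquare h0).mp hq2
  · rw [show (p - 1) / 4 = k by omega, pow_two]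
    exact hq
  · exact E.fam3 h5 hk ha hpe hq
  · intro j hj
    exact E.fam h5 hk ha hpe hq hc0 (Nat.odd_iff.mp hj)

end Pool.Agent.NEC
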