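import Pool.Agent.NEC.Clos

/-!
# NEC: the parity argument

For an extremal prime `p > 5`, the map `n ↦ ±n!^(±1)` pairs the odd numbers `3 ≤ n < (p-1)/2`, so
`p = 5 mod 8`, and the number of such `n` with `n!` a quadratic non-residue is even.  The product of
the quadratic characters of these factorials is the quadratic character of `((p-1)/4)!`.
-/

set_option autoImplicit false

namespace Pool.Agent.NEC

open Finset

variable {p : ℕ} [hp : Fact p.Prime] {w : ZMod p}

/-- The odd numbers `3 ≤ n < (p-1)/2`. -/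
def W (p : ℕ) : Finset ℕ := (range ((p - 1) / 2)).filter (fun n => n % 2 = 1 ∧ 3 ≤ n)

theorem mem_W {n : ℕ} : n ∈ W p ↔ n < (p - 1) / 2 ∧ n % 2 = 1 ∧ 3 ≤ n := by
  unfold W
  rw [mem_filter, mem_range]

/-- `j!` is `-n!` or `-1/n!`. -/
def Rl (p n j : ℕ) : Prop := ft p j = - ft p n ∨ ft p j * ft p n = -1

theorem Rl.symm {n j : ℕ} (h : Rl p n j) : Rl p j n := by
  rcases h with h | h
  · left; rw [h, neg_neg]
  · right; rw [mul_comm]; exact h

theorem Ext.ne_one (E : Ext p w) (h5 : 5 < p) {n : ℕ} (hn : n ∈ W p) : ft p n ≠ 1 := by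
  rw [mem_W] at hn
  intro h
  rcases E.idx_one h5 (by omega) (by omega) h with h1 | h1 <;> omega

theorem Ext.exists_W (E : Ext p w) (h5 : 5 < p) {n : ℕ} (hn : n ∈ W p) : ∃ j ∈ W p, Rl p n j := by
  have h1 := E.ne_one h5 hn
  have h4 := E.mod_four h5
  have hn' := hn
  rw [mem_W] at hn'
  have hm1 : ft p n ≠ -1 := by
    intro h
    have := E.idx_neg_one h5 (by omega) (by omega) h
    omega
  obtain ⟨j, hjo, hj, he⟩ := E.neg_odd h5 (n := n) (by omega) (by omega) h1
  rcases Nat.lt_or_ge j ((p - 1) / 2) with h2 | h2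
  · refine ⟨j, ?_, Or.inl he⟩
    rw [mem_W]
    refine ⟨h2, hjo, ?_⟩
    by_contra hc
    rw [show j = 1 by omega, ft_one] at he
    apply hm1
    linear_combination he
  · have h3 := refl_odd hj hjo
    refine ⟨p - 1 - j, ?_, ?_⟩
    · rw [mem_W]
      refine ⟨by omega, by omega, ?_⟩
      by_contra hc
      rw [show p - 1 - j = 1 by omega, ft_one, he] at h3
      apply hm1
      linear_combination (-1 : ZMod p) * h3
    · right
      rw [he] at h3
      linear_combination (-1 : ZMod p) * h3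

theorem Ext.uniq_W (E : Ext p w) (h5 : 5 < p) {n i j : ℕ} (hn : n ∈ W p) (hi : i ∈ W p)
    (hj : j ∈ W p) (h1 : Rl p n i) (h2 : Rl p n j) : i = j := by
  have hi1 := E.ne_one h5 hi
  have hj1 := E.ne_one h5 hj
  have hn' := hn
  rw [mem_W] at hn' hi hj
  have hn0 : ft p n ≠ 0 := ft_ne_zero (by omega)
  have main : ∀ a b : ℕ, 1 ≤ a → a < (p - 1) / 2 → a % 2 = 1 → 1 ≤ b → b < (p - 1) / 2 →
      ft p b ≠ 1 → ft p a = - ft p n → ft p b * ft p n = -1 → False := by
    intro a b ha1 ha hao hb1 hb hb1' h3 h4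
    have h6 := refl_odd (p := p) (n := a) (by omega) hao
    rw [h3] at h6
    have h7 : ft p b = ft p (p - 1 - a) := by
      apply mul_left_cancel₀ hn0
      linear_combination h4 + h6
    have := E.inj1 h5 (by omega) (by omega) (by omega) (by omega) h7 hb1'
    omega
  rcases h1 with h1 | h1 <;> rcases h2 with h2 | h2
  · exact E.inj1 h5 (by omega) (by omega) (by omega) (by omega) (by rw [h1, h2]) hi1
  · exact (main i j (by omega) hi.1 hi.2.1 (by omega) hj.1 hj1 h1 h2).elim
  · exact (main j i (by omega) hj.1 hj.2.1 (by omega) hi.1 hi1 h2 h1).elim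
  · refine E.inj1 h5 (by omega) (by omega) (by omega) (by omega) ?_ hi1
    apply mul_right_cancel₀ hn0
    rw [h1, h2]

theorem Ext.not_self (E : Ext p w) (h5 : 5 < p) {n : ℕ} (hn : n ∈ W p) : ¬ Rl p n n := by
  have h1 := E.ne_one h5 hn
  have h4 := E.mod_four h5
  rw [mem_W] at hn
  have hn0 : ft p n ≠ 0 := ft_ne_zero (by omega)
  rintro (h | h)
  · have h2 : (2 : ZMod p) * ft p n = 0 := by linear_combination h
    rcases mul_eq_zero.mp h2 with h3 | h3
    · exact two_ne h5 h3
    · exact hn0 h3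
  · have h7 := E.r_sq h5
    have h8 : (ft p n - ft p ((p - 1) / 2)) * (ft p n + ft p ((p - 1) / 2)) = 0 := by
      linear_combination h - h7
    rcases mul_eq_zero.mp h8 with h9 | h9
    · have := E.inj1 h5 (m := n) (n := (p - 1) / 2) (by omega) (by omega) (by omega) (by omega)
        (by linear_combination h9) h1
      omega
    · apply E.miss n (by omega)
      rw [E.w_eq h5]
      linear_combination h9

theorem Ext.prod_W (E : Ext p w) (h5 : 5 < p) (F : ℕ → ℤ)
    (hF : ∀ n ∈ W p, ∀ j ∈ W p, Rl p n j → F n * F j = 1) : ∏ n ∈ W p, F n = 1 := by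
  classical
  choose g hg hr using fun (n : ℕ) (hn : n ∈ W p) => E.exists_W h5 hn
  refine prod_involution g (fun n hn => hF n hn _ (hg n hn) (hr n hn)) ?_ hg ?_
  · intro n hn _ h
    apply E.not_self h5 hn
    have := hr n hn
    rwa [h] at this
  · intro n hn
    exact E.uniq_W h5 (hg n hn) (hg _ (hg n hn)) hn (hr _ (hg n hn)) (hr n hn).symm

theorem prod_W_eq (h4 : p % 4 = 1) (h5 : 5 < p) (F : ℕ → ℤ) :
    ∏ n ∈ W p, F n = ∏ i ∈ range ((p - 5) / 4), F (2 * i + 3) := by
  symm
  refine prod_nbij (fun i => 2 * i + 3) ?_ ?_ ?_ (fun _ _ => rfl)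
  · intro i hi
    rw [mem_range] at hi
    rw [mem_W]
    omega
  · intro a _ b _ h
    simp only at h
    omega
  · intro n hn
    rw [mem_coe, mem_W] at hn
    refine ⟨(n - 3) / 2, ?_, ?_⟩
    · rw [mem_coe, mem_range]; omega
    · simp only; omega

theorem Ext.mod_eight (E : Ext p w) (h5 : 5 < p) : p % 8 = 5 := by
  have h4 := E.mod_four h5
  have h1 := E.prod_W h5 (fun _ => -1) (fun _ _ _ _ _ => by norm_num)
  rw [prod_W_eq h4 h5, prod_const, card_range] at h1
  have h2 : Even ((p - 5) / 4) := by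
    rcases Nat.even_or_odd ((p - 5) / 4) with h | h
    · exact h
    · rw [h.neg_one_pow] at h1
      norm_num at h1
  rw [Nat.even_iff] at h2
  omega

/-- The quadratic character. -/
noncomputable def qc (p : ℕ) [Fact p.Prime] (x : ZMod p) : ℤ := quadraticChar (ZMod p) x

theorem qc_mul (x y : ZMod p) : qc p (x * y) = qc p x * qc p y := by
  unfold qc
  exact map_mul _ x y

theorem qc_one : qc p 1 = 1 := by
  unfold qc
  exact map_one _

theorem qc_sq {x : ZMod p} (h : x ≠ 0) : qc p x * qc p x = 1 := by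
  rw [← qc_mul, ← sq]
  exact quadraticChar_sq_one' h

theorem qc_neg_one (h4 : p % 4 = 1) : qc p (-1) = 1 := by
  unfold qc
  have h2 : ringChar (ZMod p) ≠ 2 := by
    rw [ZMod.ringChar_zmod_n]
    omega
  rw [quadraticChar_neg_one h2, ZMod.card]
  exact ZMod.χ₄_nat_one_mod_four h4

theorem qc_four (h5 : 5 < p) : qc p 4 = 1 := by
  rw [show (4 : ZMod p) = 2 * 2 by norm_num, qc_mul]
  exact qc_sq (two_ne h5)

theorem qc_pair (h5 : 5 < p) {u t : ℕ} (h8 : p = 8 * t + 5) (hu : u < t) :
    qc p (ft p (2 * (2 * u) + 3)) * qc p (ft p (2 * (2 * u + 1) + 3)) =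
      qc p ((((u + 1) * (2 * t - u) : ℕ)) : ZMod p) := by
  have h0 : ft p (2 * (2 * u) + 3) ≠ 0 := ft_ne_zero (by omega)
  have h1 : ft p (2 * (2 * u + 1) + 3) = (4 * (u : ZMod p) + 5) * (4 * ((u : ZMod p) + 1)) *
      ft p (2 * (2 * u) + 3) := by
    rw [show 2 * (2 * u + 1) + 3 = (2 * (2 * u) + 3 + 1) + 1 by ring, ft_succ, ft_succ]
    push_cast
    ring
  have h2 : (4 * (u : ZMod p) + 5) = (-1) * (4 * ((2 * t - u : ℕ) : ZMod p)) := by
    have h3 : ((4 * u + 5 + 4 * (2 * t - u) : ℕ) : ZMod p) = 0 := by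
      rw [show 4 * u + 5 + 4 * (2 * t - u) = p by omega]
      exact ZMod.natCast_self p
    push_cast at h3
    linear_combination h3
  have h4 : p % 4 = 1 := by omega
  rw [h1, h2, qc_mul, qc_mul, qc_mul, qc_mul, qc_mul, qc_neg_one h4, qc_four h5, Nat.cast_mul,
    qc_mul, Nat.cast_add, Nat.cast_one]
  have h6 := qc_sq h0
  linear_combination (qc p ((u : ZMod p) + 1) * qc p ((2 * t - u : ℕ) : ZMod p)) * h6

theorem prod_pairs (G : ℕ → ℤ) (t : ℕ) :
    ∏ i ∈ range (2 * t), G i = ∏ u ∈ range t, (G (2 * u) * G (2 * u + 1)) := by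
  induction t with
  | zero => simp
  | succ t ih =>
    rw [show 2 * (t + 1) = 2 * t + 1 + 1 by ring, prod_range_succ, prod_range_succ, ih,
      prod_range_succ]
    ring

theorem prod_nat (t : ℕ) : ∏ u ∈ range t, ((u + 1) * (2 * t - u)) = (2 * t).factorial := by
  rw [prod_mul_distrib, prod_range_add_one_eq_factorial, ← Nat.descFactorial_eq_prod_range]
  have h := Nat.factorial_mul_descFactorial (n := 2 * t) (k := t) (by omega)
  rwa [show 2 * t - t = t by omega] at h

theorem qc_prod {ι : Type*} (s : Finset ι) (g : ι → ZMod p) :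
    qc p (∏ i ∈ s, g i) = ∏ i ∈ s, qc p (g i) := by
  unfold qc
  exact map_prod _ g s

/-- The product of the quadratic characters of the factorials of the odd numbers `3 ≤ n < (p-1)/2` is the
quadratic character of `((p-1)/4)!`. -/
theorem prod_qc (h5 : 5 < p) {t : ℕ} (h8 : p = 8 * t + 5) :
    ∏ n ∈ W p, qc p (ft p n) = qc p (ft p (2 * t + 1)) := by
  have h4 : p % 4 = 1 := by omega
  rw [prod_W_eq h4 h5, show (p - 5) / 4 = 2 * t by omega, prod_pairs,
    prod_congr rfl (fun u hu => qc_pair h5 h8 (mem_range.mp hu)), ← qc_prod, ← Nat.cast_prod,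
    prod_nat, ft_succ, qc_mul]
  have h2 : qc p (((2 * t : ℕ) : ZMod p) + 1) = 1 := by
    have h3 : qc p (4 * (((2 * t : ℕ) : ZMod p) + 1)) = 1 := by
      have h6 : (4 * (((2 * t : ℕ) : ZMod p) + 1)) = -1 := by
        have h3 : ((8 * t + 5 : ℕ) : ZMod p) = 0 := by
          rw [← h8]
          exact ZMod.natCast_self p
        push_cast at h3 ⊢
        linear_combination h3
      rw [h6]
      exact qc_neg_one h4
    rwa [qc_mul, qc_four h5, one_mul] at h3
  rw [h2, one_mul]
  rfl

/-- **Necessary condition.** For an extremal prime `p = 8 t + 5 > 5` the residue `((p-1)/4)!` is a quadratic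
residue. -/
theorem Ext.qc_quarter (E : Ext p w) (h5 : 5 < p) {t : ℕ} (h8 : p = 8 * t + 5) :
    qc p (ft p (2 * t + 1)) = 1 := by
  rw [← prod_qc h5 h8]
  apply E.prod_W h5
  have h4 : p % 4 = 1 := by omega
  intro n hn j hj hr
  rw [mem_W] at hn
  rcases hr with h | h
  · rw [h, show - ft p n = (-1) * ft p n by ring, qc_mul, qc_neg_one h4, one_mul]
    exact qc_sq (ft_ne_zero (by omega))
  · rw [← qc_mul, mul_comm, h]
    exact qc_neg_one h4

end Pool.Agent.NEC
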