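import Pool.Agent.NEC.Par

/-!
# NEC: a quartic character with values in the Gaussian integers

For `p = 8 t + 5` and `k = (p-1)/4 = 2 t + 1` there are a character `χ` of order 4 with values in the
Gaussian integers and a square root `s` of `-1` modulo `p` with `χ(x) = x ^ k` under `i ↦ s`.
-/

set_option autoImplicit false

namespace Pool.Agent.NEC

open Finset

/-- The homomorphism `i ↦ s`. -/
def gi {R : Type*} [CommRing R] (s : R) (hs : s * s = -1) : GaussianInt →+* R :=
  Zsqrtd.lift ⟨s, by rw [hs]; push_cast; rfl⟩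

theorem gi_apply {R : Type*} [CommRing R] (s : R) (hs : s * s = -1) (z : GaussianInt) :
    gi s hs z = (z.re : R) + (z.im : R) * s := by
  unfold gi
  rw [Zsqrtd.lift_apply_apply]

/-- The imaginary unit. -/
def II : GaussianInt := ⟨0, 1⟩

theorem II_sq : II * II = -1 := by decide

theorem II_prim : IsPrimitiveRoot II 4 := by
  refine IsPrimitiveRoot.mk_of_lt II (by norm_num) ?_ ?_
  · decide
  · intro l h1 h2
    interval_cases l <;> decide

theorem unit4 {u : GaussianInt} (h : u ^ 4 = 1) : u = 1 ∨ u = -1 ∨ u = II ∨ u = -II := by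
  have h1 : (u - 1) * ((u + 1) * ((u - II) * (u + II))) = 0 := by
    have h2 : (u - 1) * ((u + 1) * ((u - II) * (u + II))) = (u * u - 1) * (u * u - II * II) := by
      ring
    rw [h2, II_sq]
    linear_combination h
  rcases mul_eq_zero.mp h1 with h2 | h2
  · left; linear_combination h2
  rcases mul_eq_zero.mp h2 with h3 | h3
  · right; left; linear_combination h3
  rcases mul_eq_zero.mp h3 with h4 | h4
  · right; right; left; linear_combination h4
  · right; right; right; linear_combination h4

theorem gi_II {R : Type*} [CommRing R] (s : R) (hs : s * s = -1) : gi s hs II = s := by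
  rw [gi_apply]
  simp [II]

/-- `i ↦ s` is injective on the fourth roots of unity if `2 ≠ 0`. -/
theorem gi_inj4 {R : Type*} [CommRing R] [IsDomain R] (h2 : (2 : R) ≠ 0) (s : R)
    (hs : s * s = -1) {u v : GaussianInt} (hu : u ^ 4 = 1) (hv : v ^ 4 = 1)
    (h : gi s hs u = gi s hs v) : u = v := by
  have h1 : (1 : R) ≠ -1 := by
    intro h3
    apply h2
    linear_combination h3
  have hs1 : s ≠ 1 := by
    rintro rfl
    exact h1 (by linear_combination hs)
  have hs2 : s ≠ -1 := by
    rintro rfl
    exact h1 (by linear_combination hs)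
  have hs3 : s ≠ -s := by
    intro h3
    have h4 : 2 * s = 0 := by linear_combination h3
    rcases mul_eq_zero.mp h4 with h5 | h5
    · exact h2 h5
    · rw [h5] at hs
      apply h1
      exfalso
      have h6 : (1 : R) = 0 := by linear_combination hs
      exact one_ne_zero h6
  have hs4 : (1 : R) ≠ -s := by
    intro h3
    apply hs2
    linear_combination h3
  have e1 : gi s hs 1 = 1 := map_one _
  have em : gi s hs (-1) = -1 := by rw [map_neg, map_one]
  have ei : gi s hs II = s := gi_II s hs
  have emi : gi s hs (-II) = -s := by rw [map_neg, gi_II]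
  rcases unit4 hu with rfl | rfl | rfl | rfl <;> rcases unit4 hv with rfl | rfl | rfl | rfl <;>
    simp only [e1, em, ei, emi] at h <;> first
    | rfl
    | (exfalso; exact h1 h)
    | (exfalso; exact h1 h.symm)
    | (exfalso; exact hs1 h)
    | (exfalso; exact hs1 h.symm)
    | (exfalso; exact hs2 h)
    | (exfalso; exact hs2 h.symm)
    | (exfalso; exact hs3 h)
    | (exfalso; exact hs3 h.symm)
    | (exfalso; exact hs4 h)
    | (exfalso; exact hs4 h.symm)
    | (exfalso; exact hs1 (neg_injective h))
    | (exfalso; exact hs1 (neg_injective h.symm))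

variable {p : ℕ} [hp : Fact p.Prime]

theorem exists_quartic {k : ℕ} (hk : p = 4 * k + 1) (h5 : 5 < p) :
    ∃ (χ : MulChar (ZMod p) GaussianInt) (s : ZMod p) (hs : s * s = -1), orderOf χ = 4 ∧
      ∀ x : ZMod p, gi s hs (χ x) = x ^ k := by
  classical
  have hk0 : k ≠ 0 := by omega
  obtain ⟨χ, hχ⟩ := MulChar.exists_mulChar_orderOf (ZMod p) (n := 4)
    (by rw [ZMod.card]; exact ⟨k, by omega⟩) II_prim
  obtain ⟨g, hg⟩ := IsCyclic.exists_generator (α := (ZMod p)ˣ)
  -- the order of g is p - 1
  have hog : orderOf g = p - 1 := by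
    rw [orderOf_eq_card_of_forall_mem_zpowers hg, Nat.card_eq_fintype_card, ZMod.card_units]
  have h4 : (χ g) ^ 4 = 1 := by
    have h1 : (χ ^ 4) (g : ZMod p) = 1 := by
      rw [← hχ, pow_orderOf_eq_one]
      exact MulChar.one_apply_coe g
    rwa [MulChar.pow_apply_coe] at h1
  have h2 : (χ g) ^ 2 ≠ 1 := by
    intro h
    have h1 : χ ^ 2 = 1 := by
      rw [MulChar.eq_iff hg, MulChar.pow_apply_coe, h, MulChar.one_apply_coe]
    have h3 := orderOf_dvd_of_pow_eq_one h1
    rw [hχ] at h3
    norm_num at h3
  have hI : χ g = II ∨ χ g = -II := by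
    rcases unit4 h4 with h | h | h | h
    · exfalso; apply h2; rw [h]; norm_num
    · exfalso; apply h2; rw [h]; norm_num
    · left; exact h
    · right; exact h
  -- s0 = g ^ k
  set s0 : ZMod p := (g : ZMod p) ^ k with hs0
  have hs0' : s0 * s0 = -1 := by
    have h1 : (s0 * s0) * (s0 * s0) = 1 := by
      rw [hs0, ← pow_add, ← pow_add, show k + k + (k + k) = p - 1 by omega]
      exact ZMod.pow_card_sub_one_eq_one (Units.ne_zero g)
    rcases eq_one_or _ h1 with h | h
    · exfalso
      have h3 : g ^ (k + k) = 1 := by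
        ext
        push_cast
        rw [pow_add]
        exact h
      have h6 := orderOf_dvd_of_pow_eq_one h3
      rw [hog] at h6
      have := Nat.le_of_dvd (by omega) h6
      omega
    · exact h
  obtain ⟨s, hs, hsg⟩ : ∃ (s : ZMod p) (hs : s * s = -1), gi s hs (χ g) = s0 := by
    rcases hI with h | h
    · exact ⟨s0, hs0', by rw [h, gi_II]⟩
    · refine ⟨-s0, by linear_combination hs0', ?_⟩
      rw [h, map_neg, gi_II, neg_neg]
  refine ⟨χ, s, hs, hχ, ?_⟩
  intro x
  by_cases hx : x = 0
  · subst hx
    rw [MulChar.map_zero, map_zero, zero_pow hk0]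
  · obtain ⟨m, hm⟩ := (mem_powers_iff_mem_zpowers (x := g)).mpr (hg (Units.mk0 x hx))
    have hm' : x = (g : ZMod p) ^ m := by
      have h1 := congrArg (fun u : (ZMod p)ˣ => (u : ZMod p)) hm
      simp only [Units.val_mk0] at h1
      rw [← h1]
      push_cast
      rfl
    rw [hm', map_pow, map_pow, hsg, hs0, ← pow_mul, ← pow_mul, mul_comm]

theorem chi4 {χ : MulChar (ZMod p) GaussianInt} (hχ : orderOf χ = 4) {x : ZMod p} (hx : x ≠ 0) :
    (χ x) ^ 4 = 1 := by
  have h1 : (χ ^ 4) ((Units.mk0 x hx : (ZMod p)ˣ) : ZMod p) = 1 := by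
    rw [← hχ, pow_orderOf_eq_one]
    exact MulChar.one_apply_coe _
  rwa [MulChar.pow_apply_coe, Units.val_mk0] at h1

end Pool.Agent.NEC
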