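import Pool.Agent.NEC.Jac

/-!
# NEC: the quartic character of the odd divisors of the imaginary part

If `ℓ` is an odd prime dividing the imaginary part of `J(χ, χ)` then `χ(ℓ) = (-1)^((ℓ-1)/2)`
(a case of quartic reciprocity, proved with Gauss sums in characteristic `ℓ`).
-/

set_option autoImplicit false

namespace Pool.Agent.NEC

open Finset

variable {p : ℕ} [hp : Fact p.Prime]

theorem frob_step {L : Type*} [Field L] {l : ℕ} [hl : Fact l.Prime] [CharP L l] (hl2 : l ≠ 2)
    (hlp : l ≠ p) (ψ : AddChar (ZMod p) L) (hψ : ψ.IsPrimitive) (I : L) (hI : I * I = -1)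
    {χ : MulChar (ZMod p) GaussianInt} (hχ : orderOf χ = 4) (hm : χ (-1) = -1)
    (hn : (jacobiSum χ χ).re ^ 2 + (jacobiSum χ χ).im ^ 2 = (p : ℤ))
    (hd : (l : ℤ) ∣ (jacobiSum χ χ).im) :
    gi I hI (χ (l : ZMod p)) = if l % 4 = 1 then 1 else -1 := by
  classical
  have h2 : (2 : L) ≠ 0 := by
    intro h
    have h1 : ((2 : ℕ) : L) = 0 := by exact_mod_cast h
    rw [CharP.cast_eq_zero_iff L l] at h1
    exact hl2 ((Nat.prime_dvd_prime_iff_eq hl.out Nat.prime_two).mp h1)
  have hp0 : ((p : ℕ) : L) ≠ 0 := by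
    intro h
    rw [CharP.cast_eq_zero_iff L l] at h
    exact hlp ((Nat.prime_dvd_prime_iff_eq hl.out hp.out).mp h)
  have hl0 : (l : ZMod p) ≠ 0 := by
    intro h
    rw [ZMod.natCast_eq_zero_iff] at h
    exact hlp ((Nat.prime_dvd_prime_iff_eq hp.out hl.out).mp h).symm
  set X : MulChar (ZMod p) L := χ.ringHomComp (gi I hI) with hX
  have hXa : ∀ x, X x = gi I hI (χ x) := fun x => rfl
  have hX4 : X ^ 4 = 1 := by
    ext x
    rw [MulChar.pow_apply_coe, hXa, ← map_pow, chi4 hχ (Units.ne_zero x), map_one,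
      MulChar.one_apply_coe]
  have hX2 : X ^ 2 ≠ 1 := by
    intro h
    have h1 : χ ^ 2 = 1 := by
      refine MulChar.ext fun x => ?_
      rw [MulChar.pow_apply_coe, MulChar.one_apply_coe]
      have h3 := congrArg (fun Y : MulChar (ZMod p) L => Y (x : ZMod p)) h
      simp only [MulChar.pow_apply_coe, MulChar.one_apply_coe] at h3
      rw [hXa, ← map_pow] at h3
      apply gi_inj4 h2 I hI _ (one_pow 4) (by rw [h3, map_one])
      rw [← pow_mul, mul_comm, pow_mul, chi4 hχ (Units.ne_zero x), one_pow]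
    have h3 := orderOf_dvd_of_pow_eq_one h1
    rw [hχ] at h3
    norm_num at h3
  have hX1 : X ≠ 1 := by
    intro h
    apply hX2
    rw [h, one_pow]
  have hXX : X * X ≠ 1 := by rwa [← pow_two]
  have hXm : X (-1) = -1 := by rw [hXa, hm, map_neg, map_one]
  set A : L := ((jacobiSum χ χ).re : L) with hA
  have hB : ((jacobiSum χ χ).im : L) = 0 := by
    rw [CharP.intCast_eq_zero_iff L l]
    exact hd
  have hJ : jacobiSum X X = A := by
    rw [hX, jacobiSum_ringHomComp, gi_apply, hB, zero_mul, add_zero]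
  have hA2 : A ^ 2 = (p : L) := by
    have h3 := congrArg (fun z : ℤ => (z : L)) hn
    push_cast at h3
    rw [hB] at h3
    linear_combination h3
  have hA0 : A ≠ 0 := by
    intro h
    rw [h] at hA2
    apply hp0
    rw [← hA2]
    norm_num
  have hAl : A ^ l = A := by
    have h3 : frobenius L l A = A := by
      rw [hA]
      exact map_intCast (frobenius L l) _
    rwa [frobenius_def] at h3
  -- the Gauss sum of the square
  have hinv2 : (X ^ 2)⁻¹ = X ^ 2 := by
    rw [inv_eq_iff_mul_eq_one, ← pow_add]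
    exact hX4
  have hX2m : (X ^ 2) (-1) = 1 := by
    rw [MulChar.pow_apply' _ (by norm_num), hXm]
    norm_num
  have hg2 : gaussSum (X ^ 2) ψ * gaussSum (X ^ 2) ψ = (p : L) := by
    have h3 := gaussSum_mul_gaussSum_eq_card hX2 hψ
    rw [hinv2, ZMod.card] at h3
    have h4 := mul_gaussSum_inv_eq_gaussSum (X ^ 2) ψ
    rw [hX2m, one_mul] at h4
    rwa [h4] at h3
  set g : L := gaussSum X ψ with hg
  have hgg : gaussSum (X ^ 2) ψ * A = g * g := by
    have h3 := jacobiSum_mul_nontrivial hXX ψ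
    rwa [hJ, ← pow_two] at h3
  have hg4 : g ^ 4 = A ^ 4 := by
    have h3 : g ^ 4 = (gaussSum (X ^ 2) ψ * gaussSum (X ^ 2) ψ) * A ^ 2 := by
      calc g ^ 4 = (g * g) * (g * g) := by ring
        _ = _ := by rw [← hgg]; ring
    rw [h3, hg2, ← hA2]
    ring
  have hg0 : g ≠ 0 := by
    intro h
    rw [h] at hg4
    apply hA0
    have h3 : A ^ 4 = 0 := by rw [← hg4]; norm_num
    exact pow_eq_zero_iff (by norm_num) |>.mp h3
  -- Frobenius
  have hfr : (X ^ l) (l : ZMod p) * g ^ l = gaussSum (X ^ l) ψ := by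
    have h3 := gaussSum_frob l X ψ
    rw [AddChar.pow_mulShift] at h3
    rw [hg, h3]
    exact gaussSum_mulShift (X ^ l) ψ (Units.mk0 (l : ZMod p) hl0)
  have hodd : l % 2 = 1 := by
    rcases hl.out.eq_two_or_odd with h | h
    · exact absurd h hl2
    · exact h
  by_cases h41 : l % 4 = 1
  · rw [if_pos h41]
    obtain ⟨m, hm4⟩ : ∃ m, l = 4 * m + 1 := ⟨l / 4, by omega⟩
    have h3 : X ^ l = X := by
      rw [hm4, pow_succ, pow_mul, hX4, one_pow, one_mul]
    rw [h3, ← hg] at hfr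
    have h6 : g ^ l = A ^ (l - 1) * g := by
      rw [show g ^ l = (g ^ 4) ^ m * g by rw [← pow_mul, ← pow_succ, ← hm4], hg4, ← pow_mul,
        show 4 * m = l - 1 by omega]
    have h7 : A ^ (l - 1) = 1 := by
      apply mul_right_cancel₀ hA0
      rw [← pow_succ, show l - 1 + 1 = l by omega, hAl, one_mul]
    rw [h6, h7, one_mul] at hfr
    exact mul_right_cancel₀ hg0 (by rw [one_mul]; exact hfr)
  · rw [if_neg h41]
    obtain ⟨m, hm4⟩ : ∃ m, l = 4 * m + 3 := ⟨l / 4, by omega⟩
    have h3 : X ^ l = X ^ 3 := by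
      rw [hm4, pow_add, pow_mul, hX4, one_pow, one_mul]
    have hinv : X⁻¹ = X ^ 3 := by
      rw [inv_eq_iff_mul_eq_one, ← pow_succ']
      exact hX4
    have h6 : g * gaussSum (X ^ 3) ψ = -(p : L) := by
      have h7 := gaussSum_mul_gaussSum_eq_card hX1 hψ
      rw [hinv, ZMod.card] at h7
      have h8 := mul_gaussSum_inv_eq_gaussSum (X ^ 3) ψ
      rw [MulChar.pow_apply' _ (by norm_num), hXm] at h8
      rw [← h8, ← h7]
      ring
    rw [h3, MulChar.pow_apply' _ (by norm_num)] at hfr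
    have h7 : g ^ l * g = (p : L) := by
      rw [← pow_succ, show l + 1 = 4 * (m + 1) by omega, pow_mul, hg4, ← pow_mul,
        show 4 * (m + 1) = l + 1 by omega, pow_succ, hAl, ← pow_two, hA2]
    have h8 : X (l : ZMod p) ^ 3 * (p : L) = -(p : L) := by
      rw [← h6, ← hfr]
      nth_rw 1 [← h7]
      ring
    have h9 : X (l : ZMod p) ^ 3 = -1 := by
      apply mul_right_cancel₀ hp0
      rw [h8]
      ring
    have h10 : X (l : ZMod p) ^ 4 = 1 := by
      rw [hXa, ← map_pow, chi4 hχ hl0, map_one]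
    rw [← hXa]
    linear_combination X (l : ZMod p) * h9 - h10

theorem recip_prime {l : ℕ} [hl : Fact l.Prime] (hl2 : l ≠ 2) (hlp : l ≠ p)
    {χ : MulChar (ZMod p) GaussianInt} (hχ : orderOf χ = 4) (hm : χ (-1) = -1)
    (hn : (jacobiSum χ χ).re ^ 2 + (jacobiSum χ χ).im ^ 2 = (p : ℤ))
    (hd : (l : ℤ) ∣ (jacobiSum χ χ).im) :
    χ (l : ZMod p) = if l % 4 = 1 then 1 else -1 := by
  have hrc : ringChar (AlgebraicClosure (ZMod l)) ≠ ringChar (ZMod p) := by
    rw [ZMod.ringChar_zmod_n, ringChar.eq (AlgebraicClosure (ZMod l)) l]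
    exact hlp
  obtain ⟨I0, hI0⟩ := IsAlgClosed.exists_eq_mul_self (-1 : AlgebraicClosure (ZMod l))
  have Ψ := AddChar.FiniteField.primitiveChar (ZMod p) (AlgebraicClosure (ZMod l)) hrc
  have : CharP (CyclotomicField Ψ.n (AlgebraicClosure (ZMod l))) l :=
    charP_of_injective_algebraMap
      (algebraMap (AlgebraicClosure (ZMod l))
        (CyclotomicField Ψ.n (AlgebraicClosure (ZMod l)))).injective l
  set I : CyclotomicField Ψ.n (AlgebraicClosure (ZMod l)) := algebraMap _ _ I0 with hI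
  have hII : I * I = -1 := by
    rw [hI, ← map_mul, ← hI0, map_neg, map_one]
  have h1 := frob_step hl2 hlp Ψ.char Ψ.prim I hII hχ hm hn hd
  have h2 : (2 : CyclotomicField Ψ.n (AlgebraicClosure (ZMod l))) ≠ 0 := by
    intro h
    have h1 : ((2 : ℕ) : CyclotomicField Ψ.n (AlgebraicClosure (ZMod l))) = 0 := by exact_mod_cast h
    rw [CharP.cast_eq_zero_iff _ l] at h1
    exact hl2 ((Nat.prime_dvd_prime_iff_eq hl.out Nat.prime_two).mp h1)
  have hl0 : (l : ZMod p) ≠ 0 := by
    intro h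
    rw [ZMod.natCast_eq_zero_iff] at h
    exact hlp ((Nat.prime_dvd_prime_iff_eq hp.out hl.out).mp h).symm
  by_cases h41 : l % 4 = 1
  · rw [if_pos h41] at h1 ⊢
    exact gi_inj4 h2 I hII (chi4 hχ hl0) (by norm_num) (by rw [h1, map_one])
  · rw [if_neg h41] at h1 ⊢
    exact gi_inj4 h2 I hII (chi4 hχ hl0) (by norm_num) (by rw [h1, map_neg, map_one])

end Pool.Agent.NEC
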