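import Mathlib

/-!
# NEC (MP_1790eb_nt, extremal primes): factorials modulo p

Project NEC: necessary conditions for extremal primes.  Here: the reflection formula
`n! (p-1-n)! = (-1)^(n+1)` and what follows from extremality: the missing residue is
`-((p-1)/2)!`, and the values at odd indices are closed under negation.
-/

set_option autoImplicit false

namespace Pool.Agent.NEC

/-- `n!` modulo `p`. -/
def ft (p n : ℕ) : ZMod p := ((n.factorial : ℕ) : ZMod p)

variable {p : ℕ} [hp : Fact p.Prime]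

theorem ft_zero : ft p 0 = 1 := by simp [ft]

theorem ft_one : ft p 1 = 1 := by simp [ft]

theorem ft_succ (n : ℕ) : ft p (n + 1) = ((n : ZMod p) + 1) * ft p n := by
  unfold ft
  rw [Nat.factorial_succ]
  push_cast
  ring

theorem ft_ne_zero {n : ℕ} (h : n < p) : ft p n ≠ 0 := by
  unfold ft
  rw [Ne, ZMod.natCast_eq_zero_iff, hp.out.dvd_factorial]
  omega

theorem refl {n : ℕ} (h : n ≤ p - 1) : ft p n * ft p (p - 1 - n) = (-1) ^ (n + 1) := by
  have hp2 := hp.out.two_le
  induction n with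
  | zero =>
    rw [ft_zero, one_mul, Nat.sub_zero]
    unfold ft
    rw [ZMod.wilsons_lemma]
    simp
  | succ n ih =>
    have ih' := ih (by omega)
    have h1 : p - 1 - n = (p - 1 - (n + 1)) + 1 := by omega
    rw [h1, ft_succ] at ih'
    have h2 : ((p - 1 - (n + 1) : ℕ) : ZMod p) + 1 = - ((n : ZMod p) + 1) := by
      have h3 : (((p - 1 - (n + 1) : ℕ) + 1 + (n + 1) : ℕ) : ZMod p) = 0 := by
        rw [show (p - 1 - (n + 1) : ℕ) + 1 + (n + 1) = p by omega]
        exact ZMod.natCast_self p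
      push_cast at h3
      linear_combination h3
    rw [h2] at ih'
    rw [ft_succ, pow_succ]
    linear_combination (-1 : ZMod p) * ih'

theorem ft_last : ft p (p - 1) = -1 := by
  have h := refl (p := p) (n := 0) (by omega)
  rw [ft_zero] at h
  simpa using h

theorem ft_sub_two (h5 : 5 ≤ p) : ft p (p - 2) = 1 := by
  have h := refl (p := p) (n := 1) (by omega)
  rw [ft_one] at h
  rw [show p - 1 - 1 = p - 2 by omega] at h
  simpa using h

/-- The set `V_p` of the nonzero residues modulo `p` of the form `n! mod p`. -/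
def V (p : ℕ) : Set (ZMod p) := {x | x ≠ 0 ∧ ∃ n : ℕ, (n.factorial : ZMod p) = x}

theorem V_eq (h5 : 5 ≤ p) :
    V p = ((Finset.Icc 2 (p - 1)).image (ft p) : Finset (ZMod p)) := by
  ext x
  simp only [V, Set.mem_ofPred_eq, Finset.coe_image, Set.mem_image, Finset.coe_Icc, Set.mem_Icc]
  constructor
  · rintro ⟨hx, n, hn⟩
    have hnp : n < p := by
      by_contra hc
      apply hx
      rw [← hn, ZMod.natCast_eq_zero_iff, hp.out.dvd_factorial]
      omega
    rcases lt_or_ge n 2 with h2 | h2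
    · refine ⟨p - 2, ⟨by omega, by omega⟩, ?_⟩
      rw [ft_sub_two h5, ← hn]
      interval_cases n <;> simp
    · exact ⟨n, ⟨h2, by omega⟩, hn⟩
  · rintro ⟨n, ⟨h1, h2⟩, hn⟩
    refine ⟨?_, n, hn⟩
    rw [← hn]
    exact ft_ne_zero (by omega)

/-- Extremality: no coincidences among `2!, ..., (p-1)!`, and `w` is the only missed residue. -/
structure Ext (p : ℕ) (w : ZMod p) : Prop where
  inj : ∀ m n : ℕ, 2 ≤ m → m ≤ p - 1 → 2 ≤ n → n ≤ p - 1 → ft p m = ft p n → m = n
  surj : ∀ x : ZMod p, x ≠ 0 → x ≠ w → ∃ n : ℕ, 2 ≤ n ∧ n ≤ p - 1 ∧ ft p n = x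
  miss : ∀ n : ℕ, n ≤ p - 1 → ft p n ≠ w
  ne : w ≠ 0

theorem ext_of_ncard (h5 : 5 ≤ p) (h : (V p).ncard = p - 2) :
    ∃ w : ZMod p, Ext p w ∧ w ∉ V p := by
  classical
  rw [V_eq h5, Set.ncard_coe_finset] at h
  have hinj : Set.InjOn (ft p) (Finset.Icc 2 (p - 1) : Finset ℕ) := by
    rw [← Finset.card_image_iff, h, Nat.card_Icc]
    omega
  have hsub : (Finset.Icc 2 (p - 1)).image (ft p) ⊆ (Finset.univ : Finset (ZMod p)).erase 0 := by
    intro x hx
    rw [Finset.mem_image] at hx
    obtain ⟨n, hn, rfl⟩ := hx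
    rw [Finset.mem_Icc] at hn
    rw [Finset.mem_erase]
    exact ⟨ft_ne_zero (by omega), Finset.mem_univ _⟩
  have hcard : (((Finset.univ : Finset (ZMod p)).erase 0) \ (Finset.Icc 2 (p - 1)).image (ft p)).card
      = 1 := by
    rw [Finset.card_sdiff_of_subset hsub, h, Finset.card_erase_of_mem (Finset.mem_univ _),
      Finset.card_univ, ZMod.card]
    omega
  obtain ⟨w, hw⟩ := Finset.card_eq_one.mp hcard
  have hw1 : w ∈ ((Finset.univ : Finset (ZMod p)).erase 0) \ (Finset.Icc 2 (p - 1)).image (ft p) := by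
    rw [hw]; exact Finset.mem_singleton_self w
  rw [Finset.mem_sdiff, Finset.mem_erase] at hw1
  refine ⟨w, ⟨?_, ?_, ?_, hw1.1.1⟩, ?_⟩
  · intro m n h1 h2 h3 h4 he
    exact hinj (by simp; omega) (by simp; omega) he
  · intro x hx hxw
    by_contra hc
    have hx2 : x ∈ ((Finset.univ : Finset (ZMod p)).erase 0) \
        (Finset.Icc 2 (p - 1)).image (ft p) := by
      rw [Finset.mem_sdiff, Finset.mem_erase]
      refine ⟨⟨hx, Finset.mem_univ _⟩, ?_⟩
      intro h6
      rw [Finset.mem_image] at h6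
      obtain ⟨n, hn, he⟩ := h6
      rw [Finset.mem_Icc] at hn
      exact hc ⟨n, hn.1, hn.2, he⟩
    rw [hw, Finset.mem_singleton] at hx2
    exact hxw hx2
  · intro n hn he
    apply hw1.2
    rw [Finset.mem_image]
    rcases lt_or_ge n 2 with h2 | h2
    · refine ⟨p - 2, by rw [Finset.mem_Icc]; omega, ?_⟩
      rw [ft_sub_two h5, ← he]
      interval_cases n
      · exact ft_zero.symm
      · exact ft_one.symm
    · exact ⟨n, by rw [Finset.mem_Icc]; omega, he⟩
  · rw [V_eq h5]
    intro hc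
    exact hw1.2 (by simpa using hc)

end Pool.Agent.NEC
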